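import Pool.Agent.R583.CK.Indep

/-! The combinatorial lemma behind the non-normality of the space of continuous self-maps of
the remainder of the integers. -/

namespace Pool.Agent.R583.CK

open Filter Topology Set

/-- the trace of a set of integers on a sequence of ultrafilters -/
def tr (h : ℕ → OmegaStar) (A : Set ℕ) : Set ℕ := {k | A ∈ (h k).1}

/-- the sequence given by a list, continued by a constant -/
def pad (p : OmegaStar) (l : List OmegaStar) (k : ℕ) : OmegaStar := l.getD k p

/-- the invariant: every pair decided by `A` is separated by a member of `l` -/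
def Inv (p : OmegaStar) (s : List OmegaStar × Set ℕ) : Prop :=
  s.2 ∈ p.1 ∧ ∀ q ∈ RR s.2, ∃ x ∈ s.1, ¬ (ind q.1 ∈ x.1 ↔ ind q.2 ∈ x.1)

theorem mem_or_compl (x : OmegaStar) (A : Set ℕ) : A ∈ x.1 ∨ Aᶜ ∈ x.1 :=
  Ultrafilter.mem_or_compl_mem x.1 A

theorem notMem_of_disjoint {x : OmegaStar} {A B : Set ℕ} (hA : A ∈ x.1) (h : A ⊆ Bᶜ) :
    B ∉ x.1 :=
  Ultrafilter.compl_mem_iff_notMem.1 (Filter.mem_of_superset hA h)

theorem step (p : OmegaStar) (hp : ∀ A ∈ p.1, (RR A).Finite)
    (F : (ℕ → OmegaStar) → Finset (Set ℕ)) (S : (ℕ → OmegaStar) → Finset (J × J))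
    (s : List OmegaStar × Set ℕ) (hs : Inv p s) :
    ∃ s' : List OmegaStar × Set ℕ, Inv p s' ∧ s'.2 ⊆ s.2 ∧
      (∃ m : List OmegaStar, m ≠ [] ∧ s'.1 = s.1 ++ m ∧ ∀ x ∈ m, s.2 ∈ x.1) ∧
      (∀ B ∈ F (pad p s.1), s'.2 ⊆ B ∨ s'.2 ⊆ Bᶜ) ∧
      (∀ q ∈ S (pad p s.1), (s'.2 ⊆ ind q.1 ∨ s'.2 ⊆ (ind q.1)ᶜ) ∧
        (s'.2 ⊆ ind q.2 ∨ s'.2 ⊆ (ind q.2)ᶜ)) := by
  classical
  obtain ⟨l, A⟩ := s
  obtain ⟨hA, hsep⟩ := hs
  let T : Finset (Set ℕ) := F (pad p l) ∪ ((S (pad p l)).image (fun q => ind q.1) ∪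
    (S (pad p l)).image (fun q => ind q.2))
  let A' : Set ℕ := A ∩ ⋂ B ∈ T, (if B ∈ p.1 then B else Bᶜ)
  have hA' : A' ∈ p.1 := by
    refine Filter.inter_mem hA ((Filter.biInter_finset_mem T).2 (fun B _ => ?_))
    by_cases hB : B ∈ p.1
    · rw [if_pos hB]; exact hB
    · rw [if_neg hB]; exact (mem_or_compl p B).resolve_left hB
  have hdec : ∀ B ∈ T, A' ⊆ B ∨ A' ⊆ Bᶜ := by
    intro B hB
    by_cases hB' : B ∈ p.1
    · left
      intro x hx
      have := hx.2
      simp only [mem_iInter] at this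
      have := this B hB
      rwa [if_pos hB'] at this
    · right
      intro x hx
      have := hx.2
      simp only [mem_iInter] at this
      have := this B hB
      rwa [if_neg hB'] at this
  have hx : ∀ q : J × J, ∃ x : OmegaStar, A ∈ x.1 ∧
      (q.1 ≠ q.2 → q ∉ RR A → symmDiff (ind q.1) (ind q.2) ∈ x.1) := by
    intro q
    by_cases hq : q.1 ≠ q.2 ∧ q ∉ RR A
    · have hinf : (A ∩ symmDiff (ind q.1) (ind q.2)).Infinite := fun h => hq.2 ⟨hq.1, h⟩
      obtain ⟨x, hx⟩ := exists_mem_of_infinite hinf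
      exact ⟨x, Filter.mem_of_superset hx Set.inter_subset_left,
        fun _ _ => Filter.mem_of_superset hx Set.inter_subset_right⟩
    · exact ⟨p, hA, fun h1 h2 => absurd ⟨h1, h2⟩ hq⟩
  choose x hx1 hx2 using hx
  have hfin := hp A' hA'
  let m : List OmegaStar := hfin.toFinset.toList.map x ++ [p]
  refine ⟨(l ++ m, A'), ⟨hA', ?_⟩, Set.inter_subset_left, ⟨m, by simp [m], rfl, ?_⟩, ?_, ?_⟩
  · intro q hq
    by_cases hqA : q ∈ RR A
    · obtain ⟨y, hy, hy'⟩ := hsep q hqA
      exact ⟨y, List.mem_append_left _ hy, hy'⟩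
    · refine ⟨x q, List.mem_append_right _ (List.mem_append_left _
        (List.mem_map_of_mem (by simpa using hq))), ?_⟩
      have hsd := hx2 q hq.1 hqA
      intro hiff
      by_cases h1 : ind q.1 ∈ (x q).1
      · have h2 := hiff.1 h1
        have h3 : symmDiff (ind q.1) (ind q.2) ∩ (ind q.1 ∩ ind q.2) ∈ (x q).1 :=
          Filter.inter_mem hsd (Filter.inter_mem h1 h2)
        obtain ⟨k, hk⟩ := (x q).1.nonempty_of_mem h3
        rcases hk.1 with h | h
        · exact h.2 hk.2.2
        · exact h.2 hk.2.1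
      · have h2 : ind q.2 ∉ (x q).1 := fun h => h1 (hiff.2 h)
        have h3 : symmDiff (ind q.1) (ind q.2) ∩ ((ind q.1)ᶜ ∩ (ind q.2)ᶜ) ∈ (x q).1 :=
          Filter.inter_mem hsd (Filter.inter_mem ((mem_or_compl _ _).resolve_left h1)
            ((mem_or_compl _ _).resolve_left h2))
        obtain ⟨k, hk⟩ := (x q).1.nonempty_of_mem h3
        rcases hk.1 with h | h
        · exact hk.2.1 h.1
        · exact hk.2.2 h.1
  · intro y hy
    rcases List.mem_append.1 hy with hy | hy
    · obtain ⟨q, _, rfl⟩ := List.mem_map.1 hy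
      exact hx1 q
    · rw [List.mem_singleton.1 hy]
      exact hA
  · intro B hB
    exact hdec B (Finset.mem_union_left _ hB)
  · intro q hq
    exact ⟨hdec _ (Finset.mem_union_right _ (Finset.mem_union_left _
        (Finset.mem_image_of_mem _ hq))),
      hdec _ (Finset.mem_union_right _ (Finset.mem_union_right _
        (Finset.mem_image_of_mem _ hq)))⟩

theorem comb (F : (ℕ → OmegaStar) → Finset (Set ℕ)) (S : (ℕ → OmegaStar) → Finset (J × J)) :
    ∃ (y : ℕ → OmegaStar) (hs : ℕ → (ℕ → OmegaStar)),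
      (∀ n, ∀ q ∈ S (hs n), (q.1 ≠ q.2 → tr y (ind q.1) ≠ tr y (ind q.2)) ∧
        ((tr y (ind q.1)).Finite ∨ (tr y (ind q.1))ᶜ.Finite)) ∧
      ∀ G : Finset (Set ℕ), ∃ n, ∃ z : ℕ → OmegaStar,
        (∀ k, ∀ A ∈ F (hs n), A ∈ (z k).1 ↔ A ∈ (hs n k).1) ∧
        (∀ k, ∀ A ∈ G, A ∈ (z k).1 ↔ A ∈ (y k).1) := by
  classical
  obtain ⟨p, hp⟩ := exists_p
  choose! nx hnx using step p hp F S
  let sq : ℕ → List OmegaStar × Set ℕ := fun n => nx^[n] ([], Set.univ)
  have hsucc : ∀ n, sq (n + 1) = nx (sq n) := fun n => Function.iterate_succ_apply' nx n _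
  have h0 : Inv p (sq 0) := by
    refine ⟨Filter.univ_mem, ?_⟩
    rintro q ⟨hq1, hq2⟩
    exfalso
    have := ind_infinite {q.1} {q.2} (by simpa using hq1)
    apply this
    refine hq2.subset ?_
    rintro k ⟨hk1, hk2⟩
    exact ⟨trivial, Or.inl ⟨hk1 _ (Finset.mem_singleton_self _),
      hk2 _ (Finset.mem_singleton_self _)⟩⟩
  have hinv : ∀ n, Inv p (sq n) := by
    intro n
    induction n with
    | zero => exact h0
    | succ n ih => rw [hsucc]; exact (hnx _ ih).1
  have hst : ∀ n, (sq (n + 1)).2 ⊆ (sq n).2 ∧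
      (∃ m : List OmegaStar, m ≠ [] ∧ (sq (n + 1)).1 = (sq n).1 ++ m ∧
        ∀ x ∈ m, (sq n).2 ∈ x.1) ∧
      (∀ B ∈ F (pad p (sq n).1), (sq (n + 1)).2 ⊆ B ∨ (sq (n + 1)).2 ⊆ Bᶜ) ∧
      (∀ q ∈ S (pad p (sq n).1), ((sq (n + 1)).2 ⊆ ind q.1 ∨ (sq (n + 1)).2 ⊆ (ind q.1)ᶜ) ∧
        ((sq (n + 1)).2 ⊆ ind q.2 ∨ (sq (n + 1)).2 ⊆ (ind q.2)ᶜ)) := by
    intro n
    rw [hsucc]
    exact (hnx _ (hinv n)).2
  have hanti : ∀ n m, n ≤ m → (sq m).2 ⊆ (sq n).2 := by
    intro n m hnm
    induction m, hnm using Nat.le_induction with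
    | base => exact subset_rfl
    | succ m _ ih => exact ((hst m).1).trans ih
  have hlen1 : ∀ n, (sq n).1.length < (sq (n + 1)).1.length := by
    intro n
    obtain ⟨m, hm, he, -⟩ := (hst n).2.1
    rw [he, List.length_append]
    have := List.length_pos_iff.2 hm
    omega
  have hlen : ∀ n, n ≤ (sq n).1.length := by
    intro n
    induction n with
    | zero => omega
    | succ n ih => have := hlen1 n; omega
  have hpre : ∀ n m, n ≤ m → ∀ k, k < (sq n).1.length → pad p (sq m).1 k = pad p (sq n).1 k := by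
    intro n m hnm
    induction m, hnm using Nat.le_induction with
    | base => exact fun k _ => rfl
    | succ m hm ih =>
      intro k hk
      rw [← ih k hk]
      obtain ⟨m', _, he, -⟩ := (hst m).2.1
      have hlm : (sq n).1.length ≤ (sq m).1.length := by
        clear ih he
        induction m, hm using Nat.le_induction with
        | base => exact le_rfl
        | succ m _ ih => have := hlen1 m; omega
      show (sq (m + 1)).1.getD k p = (sq m).1.getD k p
      rw [he, List.getD_append _ _ _ _ (by omega)]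
  let y : ℕ → OmegaStar := fun k => pad p (sq (k + 1)).1 k
  have hy : ∀ n k, k < (sq n).1.length → y k = pad p (sq n).1 k := by
    intro n k hk
    rcases le_total n (k + 1) with h | h
    · exact hpre n (k + 1) h k hk
    · exact (hpre (k + 1) n h k (lt_of_lt_of_le (Nat.lt_succ_self k) (hlen (k + 1)))).symm
  have hbig : ∀ n m, n ≤ m → ∀ k, (sq n).1.length ≤ k → k < (sq m).1.length →
      (sq n).2 ∈ (pad p (sq m).1 k).1 := by
    intro n m hnm
    induction m, hnm using Nat.le_induction with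
    | base => intro k h1 h2; omega
    | succ m hm ih =>
      intro k h1 h2
      by_cases h3 : k < (sq m).1.length
      · rw [hpre m (m + 1) (by omega) k h3]
        exact ih k h1 h3
      · obtain ⟨m', _, he, hm'⟩ := (hst m).2.1
        have h4 : pad p (sq (m + 1)).1 k = m'.getD (k - (sq m).1.length) p := by
          show (sq (m + 1)).1.getD k p = _
          rw [he, List.getD_append_right _ _ _ _ (by omega)]
        have h5 : k - (sq m).1.length < m'.length := by
          rw [he, List.length_append] at h2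
          omega
        have h6 : m'.getD (k - (sq m).1.length) p ∈ m' := by
          rw [List.getD_eq_getElem _ _ h5]
          exact List.getElem_mem h5
        rw [h4]
        exact Filter.mem_of_superset (hm' _ h6) (hanti n m hm)
  have hyA : ∀ n k, (sq n).1.length ≤ k → (sq n).2 ∈ (y k).1 := by
    intro n k hk
    have h1 : n ≤ k + 1 := by have := hlen n; omega
    exact hbig n (k + 1) h1 k hk (lt_of_lt_of_le (Nat.lt_succ_self k) (hlen (k + 1)))
  refine ⟨y, fun n => pad p (sq n).1, ?_, ?_⟩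
  · intro n q hq
    obtain ⟨hd1, hd2⟩ := (hst n).2.2.2 q hq
    refine ⟨fun hne heq => ?_, ?_⟩
    · by_cases hR : q ∈ RR (sq (n + 1)).2
      · obtain ⟨x, hx, hx'⟩ := (hinv (n + 1)).2 q hR
        obtain ⟨k, hk, hkx⟩ := List.getElem_of_mem hx
        have h1 : y k = x := by
          rw [hy (n + 1) k hk]
          show (sq (n + 1)).1.getD k p = x
          rw [List.getD_eq_getElem _ _ hk, hkx]
        apply hx'
        have h2 : k ∈ tr y (ind q.1) ↔ k ∈ tr y (ind q.2) := by rw [heq]
        rw [← h1]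
        exact h2
      · have hlast := hyA (n + 1) (sq (n + 1)).1.length le_rfl
        have h2 : (sq (n + 1)).1.length ∈ tr y (ind q.1) ↔
          (sq (n + 1)).1.length ∈ tr y (ind q.2) := by rw [heq]
        have h2' : ind q.1 ∈ (y (sq (n + 1)).1.length).1 ↔
          ind q.2 ∈ (y (sq (n + 1)).1.length).1 := h2
        rcases hd1 with hd1 | hd1 <;> rcases hd2 with hd2 | hd2
        · apply hR
          refine ⟨hne, Set.Finite.subset Set.finite_empty ?_⟩
          rintro k ⟨hk, hk' | hk'⟩
          · exact hk'.2 (hd2 hk)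
          · exact hk'.2 (hd1 hk)
        · exact notMem_of_disjoint hlast hd2 (h2'.1 (Filter.mem_of_superset hlast hd1))
        · exact notMem_of_disjoint hlast hd1 (h2'.2 (Filter.mem_of_superset hlast hd2))
        · apply hR
          refine ⟨hne, Set.Finite.subset Set.finite_empty ?_⟩
          rintro k ⟨hk, hk' | hk'⟩
          · exact hd1 hk hk'.1
          · exact hd2 hk hk'.1
    · rcases hd1 with hd1 | hd1
      · right
        refine (Set.finite_Iio (sq (n + 1)).1.length).subset ?_
        intro k hk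
        by_contra hk'
        have hk2 : (sq (n + 1)).1.length ≤ k := not_lt.1 hk'
        exact hk (Filter.mem_of_superset (hyA (n + 1) k hk2) hd1)
      · left
        refine (Set.finite_Iio (sq (n + 1)).1.length).subset ?_
        intro k hk
        by_contra hk'
        have hk2 : (sq (n + 1)).1.length ≤ k := not_lt.1 hk'
        exact notMem_of_disjoint (hyA (n + 1) k hk2) hd1 hk
  · intro G
    let b : Finset (Set ℕ) → Set ℕ := fun τ => {m | ∀ B ∈ G, (m ∈ B ↔ B ∈ τ)}
    have hty : ∀ x : OmegaStar, b (G.filter (fun B => B ∈ x.1)) ∈ x.1 := by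
      intro x
      have h1 : (⋂ B ∈ G, (if B ∈ x.1 then B else Bᶜ)) ∈ x.1 := by
        refine (Filter.biInter_finset_mem G).2 (fun B _ => ?_)
        by_cases hB : B ∈ x.1
        · rw [if_pos hB]; exact hB
        · rw [if_neg hB]; exact (mem_or_compl x B).resolve_left hB
      refine Filter.mem_of_superset h1 ?_
      intro m hm B hB
      simp only [mem_iInter] at hm
      have := hm B hB
      rw [Finset.mem_filter]
      by_cases hBx : B ∈ x.1
      · rw [if_pos hBx] at this
        exact ⟨fun _ => ⟨hB, hBx⟩, fun _ => this⟩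
      · rw [if_neg hBx] at this
        exact ⟨fun h => absurd h this, fun h => absurd h.2 hBx⟩
    have hev : ∀ᶠ N in atTop, ∀ τ ∈ G.powerset,
        (b τ ∩ (sq N).2).Finite ∨ ∀ n, (b τ ∩ (sq n).2).Infinite := by
      refine (Filter.eventually_all_finset _).2 (fun τ _ => ?_)
      by_cases h : ∀ n, (b τ ∩ (sq n).2).Infinite
      · exact Eventually.of_forall (fun _ => Or.inr h)
      · push Not at h
        obtain ⟨n0, hn0⟩ := h
        filter_upwards [Ici_mem_atTop n0] with N hN
        exact Or.inl ((by simpa using hn0 : (b τ ∩ (sq n0).2).Finite).subset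
          (Set.inter_subset_inter_right _ (hanti n0 N hN)))
    obtain ⟨N, hN⟩ := hev.exists
    have hz : ∀ k, ∃ x : OmegaStar, (k < (sq N).1.length → x = y k) ∧
        ((sq N).1.length ≤ k → b (G.filter (fun B => B ∈ (y k).1)) ∩ (sq (N + 1)).2 ∈ x.1) := by
      intro k
      by_cases hk : k < (sq N).1.length
      · exact ⟨y k, fun _ => rfl, fun h => absurd h (not_le.2 hk)⟩
      · have h1 : b (G.filter (fun B => B ∈ (y k).1)) ∩ (sq N).2 ∈ (y k).1 :=
          Filter.inter_mem (hty (y k)) (hyA N k (not_lt.1 hk))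
        rcases hN (G.filter (fun B => B ∈ (y k).1))
          (Finset.mem_powerset.2 (Finset.filter_subset _ _)) with h2 | h2
        · exact absurd h2 (infinite_of_mem h1)
        · obtain ⟨x, hx⟩ := exists_mem_of_infinite (h2 (N + 1))
          exact ⟨x, fun h => absurd h hk, fun _ => hx⟩
    choose z hz1 hz2 using hz
    refine ⟨N, z, ?_, ?_⟩
    · intro k B hB
      by_cases hk : k < (sq N).1.length
      · rw [hz1 k hk, hy N k hk]
      · have h1 : pad p (sq N).1 k = p := List.getD_eq_default _ _ (not_lt.1 hk)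
        have h2 : (sq (N + 1)).2 ∈ (z k).1 :=
          Filter.mem_of_superset (hz2 k (not_lt.1 hk)) Set.inter_subset_right
        have h3 : (sq (N + 1)).2 ∈ p.1 := (hinv (N + 1)).1
        show B ∈ (z k).1 ↔ B ∈ (pad p (sq N).1 k).1
        rw [h1]
        rcases (hst N).2.2.1 B hB with h | h
        · exact ⟨fun _ => Filter.mem_of_superset h3 h, fun _ => Filter.mem_of_superset h2 h⟩
        · exact ⟨fun h' => absurd h' (notMem_of_disjoint h2 h),
            fun h' => absurd h' (notMem_of_disjoint h3 h)⟩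
    · intro k B hB
      by_cases hk : k < (sq N).1.length
      · rw [hz1 k hk]
      · have h2 : b (G.filter (fun B => B ∈ (y k).1)) ∈ (z k).1 :=
          Filter.mem_of_superset (hz2 k (not_lt.1 hk)) Set.inter_subset_left
        by_cases hBy : B ∈ (y k).1
        · refine ⟨fun _ => hBy, fun _ => Filter.mem_of_superset h2 ?_⟩
          intro m hm
          exact (hm B hB).2 (Finset.mem_filter.2 ⟨hB, hBy⟩)
        · refine ⟨fun h' => absurd h' (notMem_of_disjoint h2 ?_), fun h' => absurd h' hBy⟩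
          intro m hm hmB
          exact hBy (Finset.mem_filter.1 ((hm B hB).1 hmB)).2

end Pool.Agent.R583.CK
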