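import Mathlib

/-! Continuous maps from a product of two compact spaces to a compact zero-dimensional
space with the countable separation property locally depend on one coordinate
(a theorem of van Douwen for target spaces like the remainder of the integers). -/

namespace Pool.Agent.R583.CK

open Filter Topology Set

/-- The countable separation property: two countable families of clopen sets such that every
member of the first is disjoint from every member of the second are separated by one clopen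
set. -/
def Sep (Z : Type*) [TopologicalSpace Z] : Prop :=
  ∀ C E : ℕ → Set Z, (∀ n, IsClopen (C n)) → (∀ n, IsClopen (E n)) →
    (∀ i j, Disjoint (C i) (E j)) →
      ∃ D, IsClopen D ∧ (∀ i, C i ⊆ D) ∧ (∀ j, Disjoint D (E j))

/-- a tuple of data used in the recursive constructions -/
structure Tup (X Y Z : Type*) where
  a : X
  b : Y
  C : Set Z
  E : Set Z

theorem ev {T W : Type*} [TopologicalSpace T] [TopologicalSpace W] {f : T → W}
    (hf : Continuous f) {t : T} {F : Set W} (hF : IsOpen F) (h : f t ∈ F) :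
    ∀ᶠ x in 𝓝 t, f x ∈ F :=
  (hf.tendsto t).eventually (hF.mem_nhds h)

section avoid

variable {Z : Type*} [TopologicalSpace Z] [CompactSpace Z] [T2Space Z]
  [TotallyDisconnectedSpace Z]

theorem avoid {ι : Type*} (s : Finset ι) (K : ι → Set Z) (hK : ∀ i ∈ s, IsClopen (K i))
    (T W : Set Z) (hT : T.Finite) (hW : W.Finite) (h1 : ∀ i ∈ s, Disjoint (K i) W)
    (h2 : Disjoint T W) :
    ∃ F, IsClopen F ∧ W ⊆ F ∧ (∀ i ∈ s, Disjoint (K i) F) ∧ Disjoint T F := by
  have hop : IsOpen ((⋃ i ∈ s, K i) ∪ T)ᶜ := by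
    apply IsClosed.isOpen_compl (self := ?_)
    exact (s.finite_toSet.isClosed_biUnion (fun i hi => (hK i hi).isClosed)).union hT.isClosed
  obtain ⟨F, hF, hWF, hFU⟩ := exists_clopen_of_closed_subset_open hW.isClosed hop (by
    intro w hw hw'
    rcases hw' with hw' | hw'
    · simp only [mem_iUnion] at hw'
      obtain ⟨i, hi, hw'⟩ := hw'
      exact Set.disjoint_left.1 (h1 i hi) hw' hw
    · exact Set.disjoint_left.1 h2 hw' hw)
  refine ⟨F, hF, hWF, fun i hi => ?_, ?_⟩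
  · rw [Set.disjoint_left]
    intro w hw hwF
    exact hFU hwF (Or.inl (by simp only [mem_iUnion]; exact ⟨i, hi, hw⟩))
  · rw [Set.disjoint_left]
    intro w hw hwF
    exact hFU hwF (Or.inr hw)

end avoid

section two

variable {X Y Z : Type*} [TopologicalSpace X] [TopologicalSpace Y] [TopologicalSpace Z]
  [CompactSpace X] [CompactSpace Y]

theorem no_lower {G : X × Y → Z} (hG : Continuous G) (a : ℕ → X) (b : ℕ → Y) {D : Set Z}
    (hD : IsClopen D) (h1 : ∀ n, G (a n, b n) ∈ D)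
    (h2 : ∀ l k, l < k → G (a k, b l) ∉ D) : False := by
  have : Nonempty X := ⟨a 0⟩
  have : Nonempty Y := ⟨b 0⟩
  let u : Ultrafilter ℕ := Filter.hyperfilter ℕ
  have hu : (u : Filter ℕ) ≤ atTop := by
    rw [← Nat.cofinite_eq_atTop]
    exact Filter.hyperfilter_le_cofinite
  obtain ⟨x, hx⟩ : ∃ x, Tendsto a u (𝓝 x) := ⟨(u.map a).lim, Ultrafilter.le_nhds_lim _⟩
  obtain ⟨y, hy⟩ : ∃ y, Tendsto b u (𝓝 y) := ⟨(u.map b).lim, Ultrafilter.le_nhds_lim _⟩
  have h3 : G (x, y) ∈ D := by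
    have : Tendsto (fun n => G (a n, b n)) u (𝓝 (G (x, y))) :=
      (hG.tendsto (x, y)).comp (hx.prodMk_nhds hy)
    exact hD.isClosed.mem_of_tendsto this (Eventually.of_forall h1)
  have h4 : ∀ l, G (x, b l) ∈ Dᶜ := by
    intro l
    have : Tendsto (fun n => G (a n, b l)) u (𝓝 (G (x, b l))) :=
      (hG.tendsto (x, b l)).comp (hx.prodMk_nhds tendsto_const_nhds)
    exact hD.compl.isClosed.mem_of_tendsto this (hu (by
      filter_upwards [Ioi_mem_atTop l] with k hk
      exact h2 l k hk))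
  have h5 : G (x, y) ∈ Dᶜ := by
    have : Tendsto (fun n => G (x, b n)) u (𝓝 (G (x, y))) :=
      (hG.tendsto (x, y)).comp (tendsto_const_nhds.prodMk_nhds hy)
    exact hD.compl.isClosed.mem_of_tendsto this (Eventually.of_forall h4)
  exact h5 h3

theorem no_upper {G : X × Y → Z} (hG : Continuous G) (a : ℕ → X) (b : ℕ → Y) {D : Set Z}
    (hD : IsClopen D) (h1 : ∀ n, G (a n, b n) ∈ D)
    (h2 : ∀ k l, k < l → G (a k, b l) ∉ D) : False :=
  no_lower (G := fun p : Y × X => G (p.2, p.1)) (hG.comp continuous_swap) b a hD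
    h1 (fun l k hlk => h2 l k hlk)

variable [CompactSpace Z] [T2Space Z] [TotallyDisconnectedSpace Z]

theorem pat1 (hS : Sep Z) {G : X × Y → Z} (hG : Continuous G) (p : X) (q : Y) :
    ∀ᶠ x : X × Y in 𝓝 (p, q), ¬ (G x = G (p, q) ∧ G (p, x.2) ≠ G (p, q)) := by
  by_contra h
  have h' : ∃ᶠ x : X × Y in 𝓝 (p, q), (G x = G (p, q) ∧ G (p, x.2) ≠ G (p, q)) := h
  obtain ⟨f, hf, hr⟩ := exists_seq_of_forall_finset_exists (α := Tup X Y Z)
    (fun t => G (t.a, t.b) = G (p, q) ∧ IsClopen t.C ∧ G (p, t.b) ∈ t.C ∧ G (p, q) ∉ t.C)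
    (fun s t => G (t.a, s.b) ∈ s.C ∧ Disjoint s.C t.C) (by
    intro s hs
    have e1 : ∀ᶠ x : X × Y in 𝓝 (p, q), ∀ t ∈ s, G (x.1, t.b) ∈ t.C :=
      (Filter.eventually_all_finset s).2 (fun t ht =>
        ev (f := fun x : X × Y => G (x.1, t.b)) (hG.comp (by fun_prop)) (hs t ht).2.1.isOpen
          (hs t ht).2.2.1)
    have e2 : ∀ᶠ x : X × Y in 𝓝 (p, q), ∀ t ∈ s, G (p, x.2) ∈ (t.C)ᶜ :=
      (Filter.eventually_all_finset s).2 (fun t ht =>
        ev (f := fun x : X × Y => G (p, x.2)) (hG.comp (by fun_prop))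
          (hs t ht).2.1.compl.isOpen (hs t ht).2.2.2)
    obtain ⟨x, ⟨hx1, hx2⟩, hx3, hx4⟩ := (h'.and_eventually (e1.and e2)).exists
    obtain ⟨F, hF, hWF, hd, hT⟩ := avoid s (fun t => t.C) (fun t ht => (hs t ht).2.1)
      {G (p, q)} {G (p, x.2)} (Set.finite_singleton _) (Set.finite_singleton _)
      (fun t ht => by
        rw [Set.disjoint_singleton_right]
        exact hx4 t ht)
      (by rw [Set.disjoint_singleton]; exact fun h => hx2 h.symm)
    refine ⟨⟨x.1, x.2, F, ∅⟩, ⟨hx1, hF, hWF rfl, ?_⟩, fun t ht => ⟨hx3 t ht, hd t ht⟩⟩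
    exact Set.disjoint_singleton_left.1 hT)
  obtain ⟨D, hD, hD1, hD2⟩ := hS (fun i => (f (2 * i)).C) (fun i => (f (2 * i + 1)).C)
    (fun n => (hf _).2.1) (fun n => (hf _).2.1) (by
      intro i j
      rcases lt_or_gt_of_ne (show 2 * i ≠ 2 * j + 1 by omega) with h | h
      · exact (hr _ _ h).2
      · exact (hr _ _ h).2.symm)
  by_cases hz : G (p, q) ∈ D
  · refine no_lower hG (fun n => (f (2 * n + 1)).a) (fun n => (f (2 * n + 1)).b) hD
      (fun n => by rw [(hf _).1]; exact hz) (fun l k hlk => ?_)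
    have := (hr (2 * l + 1) (2 * k + 1) (by omega)).1
    exact fun h => Set.disjoint_left.1 (hD2 l) h this
  · refine no_lower hG (fun n => (f (2 * n)).a) (fun n => (f (2 * n)).b) hD.compl
      (fun n => by rw [(hf _).1]; exact hz) (fun l k hlk => ?_)
    have := (hr (2 * l) (2 * k) (by omega)).1
    exact fun h => h (hD1 l this)

theorem pat2 (hS : Sep Z) {G : X × Y → Z} (hG : Continuous G) (p : X) (q : Y) :
    ∀ᶠ x : X × Y in 𝓝 (p, q), ¬ (G x ≠ G (p, q) ∧ G (p, x.2) ≠ G (p, q) ∧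
      G x ≠ G (p, x.2)) := by
  classical
  by_contra h
  have h' : ∃ᶠ x : X × Y in 𝓝 (p, q), (G x ≠ G (p, q) ∧ G (p, x.2) ≠ G (p, q) ∧
      G x ≠ G (p, x.2)) := h
  obtain ⟨f, hf, hr⟩ := exists_seq_of_forall_finset_exists (α := Tup X Y Z)
    (fun t => IsClopen t.C ∧ IsClopen t.E ∧ G (t.a, t.b) ∈ t.C ∧ G (p, t.b) ∈ t.E ∧
      G (p, q) ∉ t.C ∧ G (p, q) ∉ t.E ∧ Disjoint t.C t.E)
    (fun s t => G (t.a, s.b) ∈ s.E ∧ Disjoint s.C t.E ∧ Disjoint s.E t.C) (by
    intro s hs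
    have hcl : ∀ t ∈ s, IsClopen (t.C ∪ t.E) := fun t ht => (hs t ht).1.union (hs t ht).2.1
    have hzn : ∀ t ∈ s, G (p, q) ∈ (t.C ∪ t.E)ᶜ := fun t ht h => h.elim
      (hs t ht).2.2.2.2.1 (hs t ht).2.2.2.2.2.1
    have e1 : ∀ᶠ x : X × Y in 𝓝 (p, q), ∀ t ∈ s, G (x.1, t.b) ∈ t.E :=
      (Filter.eventually_all_finset s).2 (fun t ht =>
        ev (f := fun x : X × Y => G (x.1, t.b)) (hG.comp (by fun_prop)) (hs t ht).2.1.isOpen
          (hs t ht).2.2.2.1)
    have e2 : ∀ᶠ x : X × Y in 𝓝 (p, q), ∀ t ∈ s, G (p, x.2) ∈ (t.C ∪ t.E)ᶜ :=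
      (Filter.eventually_all_finset s).2 (fun t ht =>
        ev (f := fun x : X × Y => G (p, x.2)) (hG.comp (by fun_prop))
          (hcl t ht).compl.isOpen (hzn t ht))
    have e3 : ∀ᶠ x : X × Y in 𝓝 (p, q), ∀ t ∈ s, G x ∈ (t.C ∪ t.E)ᶜ :=
      (Filter.eventually_all_finset s).2 (fun t ht =>
        ev hG (hcl t ht).compl.isOpen (hzn t ht))
    obtain ⟨x, ⟨hx1, hx2, hx3⟩, hx4, hx5, hx6⟩ :=
      (h'.and_eventually (e1.and (e2.and e3))).exists
    obtain ⟨C, hC, hWC, hdC, hTC⟩ := avoid s (fun t => t.C ∪ t.E) hcl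
      {G (p, q), G (p, x.2)} {G x} (by simp) (Set.finite_singleton _)
      (fun t ht => by
        rw [Set.disjoint_singleton_right]
        exact hx6 t ht)
      (by
        rw [Set.disjoint_singleton_right]
        rintro (h | h)
        · exact hx1 h
        · exact hx3 h)
    have hxC : G x ∈ C := hWC rfl
    have hzC : G (p, q) ∉ C := fun h => Set.disjoint_left.1 hTC (Or.inl rfl) h
    have hgC : G (p, x.2) ∉ C := fun h => Set.disjoint_left.1 hTC (Or.inr rfl) h
    obtain ⟨E, hE, hWE, hdE, hTE⟩ := avoid (insert (Tup.mk x.1 x.2 C ∅) s)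
      (fun t => t.C ∪ t.E) (by
        intro t ht
        rcases Finset.mem_insert.1 ht with rfl | ht
        · simpa using hC
        · exact hcl t ht)
      {G (p, q)} {G (p, x.2)} (Set.finite_singleton _) (Set.finite_singleton _)
      (fun t ht => by
        rw [Set.disjoint_singleton_right]
        rcases Finset.mem_insert.1 ht with rfl | ht
        · simpa using hgC
        · exact hx5 t ht)
      (by rw [Set.disjoint_singleton]; exact fun h => hx2 h.symm)
    refine ⟨⟨x.1, x.2, C, E⟩, ⟨hC, hE, hxC, hWE rfl, hzC, Set.disjoint_singleton_left.1 hTE, ?_⟩,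
      fun t ht => ⟨hx4 t ht, ?_, ?_⟩⟩
    · have := hdE _ (Finset.mem_insert_self _ s)
      simpa using this
    · exact (Set.disjoint_union_left.1 (hdE t (Finset.mem_insert_of_mem ht))).1
    · exact (Set.disjoint_union_left.1 (hdC t ht)).2)
  obtain ⟨D, hD, hD1, hD2⟩ := hS (fun i => (f i).C) (fun i => (f i).E)
    (fun n => (hf _).1) (fun n => (hf _).2.1) (by
      intro i j
      rcases lt_trichotomy i j with h | h | h
      · exact (hr _ _ h).2.1
      · subst h; exact (hf i).2.2.2.2.2.2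
      · exact (hr _ _ h).2.2.symm)
  refine no_lower hG (fun n => (f n).a) (fun n => (f n).b) hD
      (fun n => hD1 n (hf n).2.2.1) (fun l k hlk => ?_)
  exact fun h => Set.disjoint_left.1 (hD2 l) h (hr l k hlk).1

theorem pat3 (hS : Sep Z) {G : X × Y → Z} (hG : Continuous G) (p : X) (q : Y) :
    ¬ ∀ s : Finset Y, (∀ b ∈ s, G (p, b) = G (p, q)) →
      ∃ᶠ x : X × Y in 𝓝 (p, q), (G x ≠ G (p, q) ∧ G (p, x.2) = G (p, q)) ∧
        ∀ b ∈ s, G x ≠ G (x.1, b) := by
  classical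
  intro h'
  obtain ⟨f, hf, hr⟩ := exists_seq_of_forall_finset_exists (α := Tup X Y Z)
    (fun t => IsClopen t.C ∧ IsClopen t.E ∧ G (t.a, t.b) ∈ t.C ∧ G (p, t.b) = G (p, q) ∧
      G (p, q) ∉ t.C ∧ G (p, q) ∉ t.E ∧ Disjoint t.C t.E)
    (fun s t => (G (t.a, s.b) ∉ t.E → G (t.a, s.b) = G (p, q)) ∧ Disjoint s.C t.E ∧
      Disjoint s.E t.C ∧ Disjoint s.C t.C) (by
    intro s hs
    have hcl : ∀ t ∈ s, IsClopen (t.C ∪ t.E) := fun t ht => (hs t ht).1.union (hs t ht).2.1
    have hzn : ∀ t ∈ s, G (p, q) ∈ (t.C ∪ t.E)ᶜ := fun t ht h => h.elim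
      (hs t ht).2.2.2.2.1 (hs t ht).2.2.2.2.2.1
    have e1 : ∀ᶠ x : X × Y in 𝓝 (p, q), ∀ t ∈ s, ∀ t' ∈ s, G (x.1, t.b) ∈ (t'.C)ᶜ := by
      refine (Filter.eventually_all_finset s).2 (fun t ht => ?_)
      refine (Filter.eventually_all_finset s).2 (fun t' ht' => ?_)
      refine ev (f := fun x : X × Y => G (x.1, t.b)) (hG.comp (by fun_prop))
        (hs t' ht').1.compl.isOpen ?_
      show G (p, t.b) ∈ (t'.C)ᶜ
      rw [(hs t ht).2.2.2.1]
      exact (hs t' ht').2.2.2.2.1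
    have e3 : ∀ᶠ x : X × Y in 𝓝 (p, q), ∀ t ∈ s, G x ∈ (t.C ∪ t.E)ᶜ :=
      (Filter.eventually_all_finset s).2 (fun t ht =>
        ev hG (hcl t ht).compl.isOpen (hzn t ht))
    obtain ⟨x, ⟨⟨hx1, hx2⟩, hx3⟩, hx4, hx6⟩ :=
      ((h' (s.image (fun t => t.b)) (by
        intro b hb
        obtain ⟨t, ht, rfl⟩ := Finset.mem_image.1 hb
        exact (hs t ht).2.2.2.1)).and_eventually (e1.and e3)).exists
    have hx3' : ∀ t ∈ s, G x ≠ G (x.1, t.b) := fun t ht =>
      hx3 t.b (Finset.mem_image_of_mem _ ht)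
    obtain ⟨C, hC, hWC, hdC, hTC⟩ := avoid s (fun t => t.C ∪ t.E) hcl
      ({G (p, q)} ∪ (fun t : Tup X Y Z => G (x.1, t.b)) '' s) {G x}
      ((Set.finite_singleton _).union (s.finite_toSet.image _)) (Set.finite_singleton _)
      (fun t ht => by
        rw [Set.disjoint_singleton_right]
        exact hx6 t ht)
      (by
        rw [Set.disjoint_singleton_right]
        rintro (h | ⟨t, ht, h⟩)
        · exact hx1 h
        · exact hx3' t ht h.symm)
    have hxC : G x ∈ C := hWC rfl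
    have hzC : G (p, q) ∉ C := fun h => Set.disjoint_left.1 hTC (Or.inl rfl) h
    have hgC : ∀ t ∈ s, G (x.1, t.b) ∉ C := fun t ht h =>
      Set.disjoint_left.1 hTC (Or.inr ⟨t, ht, rfl⟩) h
    obtain ⟨E, hE, hWE, hdE, hTE⟩ := avoid (insert (Tup.mk x.1 x.2 C ∅) s)
      (fun t => t.C) (by
        intro t ht
        rcases Finset.mem_insert.1 ht with rfl | ht
        · simpa using hC
        · exact (hs t ht).1)
      {G (p, q)} (((fun t : Tup X Y Z => G (x.1, t.b)) '' s) \ {G (p, q)})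
      (Set.finite_singleton _) ((s.finite_toSet.image _).subset Set.sdiff_subset)
      (fun t ht => by
        rw [Set.disjoint_right]
        rintro w ⟨⟨t', ht', rfl⟩, hw⟩
        rcases Finset.mem_insert.1 ht with rfl | ht
        · simpa using hgC t' ht'
        · exact hx4 t' ht' t ht)
      (Set.disjoint_sdiff_right)
    refine ⟨⟨x.1, x.2, C, E⟩, ⟨hC, hE, hxC, hx2, hzC, Set.disjoint_singleton_left.1 hTE, ?_⟩,
      fun t ht => ⟨?_, ?_, ?_, ?_⟩⟩
    · have := hdE _ (Finset.mem_insert_self _ s)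
      simpa using this
    · intro hn
      by_contra hne
      exact hn (hWE ⟨⟨t, ht, rfl⟩, hne⟩)
    · exact hdE t (Finset.mem_insert_of_mem ht)
    · exact (Set.disjoint_union_left.1 (hdC t ht)).2
    · exact (Set.disjoint_union_left.1 (hdC t ht)).1)
  have hCE : ∀ i j, Disjoint (f i).C (f j).E := by
    intro i j
    rcases lt_trichotomy i j with h | h | h
    · exact (hr _ _ h).2.1
    · subst h; exact (hf i).2.2.2.2.2.2
    · exact (hr _ _ h).2.2.1.symm
  have hCC : ∀ i j, i ≠ j → Disjoint (f i).C (f j).C := by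
    intro i j hij
    rcases lt_or_gt_of_ne hij with h | h
    · exact (hr _ _ h).2.2.2
    · exact (hr _ _ h).2.2.2.symm
  obtain ⟨D, hD, hD1, hD2⟩ := hS (fun i => (f (2 * i)).C)
    (fun i => (f (2 * i + 1)).C ∪ (f i).E)
    (fun n => (hf _).1) (fun n => (hf _).1.union (hf _).2.1) (by
      intro i j
      exact Set.disjoint_union_right.2 ⟨hCC _ _ (by omega), hCE _ _⟩)
  by_cases hz : G (p, q) ∈ D
  · obtain ⟨D', hD', hD1', hD2'⟩ := hS (fun i => (f (2 * i + 1)).C) (fun i => (f i).E)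
      (fun n => (hf _).1) (fun n => (hf _).2.1) (fun i j => hCE _ _)
    refine no_lower hG (fun n => (f (2 * n + 1)).a) (fun n => (f (2 * n + 1)).b)
      (hD'.diff hD) (fun n => ⟨hD1' n (hf _).2.2.1, fun h => ?_⟩) (fun l k hlk => ?_)
    · exact Set.disjoint_left.1 (Set.disjoint_union_right.1 (hD2 n)).1 h (hf _).2.2.1
    · have := (hr (2 * l + 1) (2 * k + 1) (by omega)).1
      intro h
      by_cases hE : G ((f (2 * k + 1)).a, (f (2 * l + 1)).b) ∈ (f (2 * k + 1)).E
      · exact Set.disjoint_left.1 (hD2' _) h.1 hE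
      · exact h.2 (by rw [this hE]; exact hz)
  · refine no_lower hG (fun n => (f (2 * n)).a) (fun n => (f (2 * n)).b) hD
      (fun n => hD1 n (hf _).2.2.1) (fun l k hlk => ?_)
    have := (hr (2 * l) (2 * k) (by omega)).1
    intro h
    by_cases hE : G ((f (2 * k)).a, (f (2 * l)).b) ∈ (f (2 * k)).E
    · exact Set.disjoint_left.1 (Set.disjoint_union_right.1 (hD2 _)).2 h hE
    · rw [this hE] at h
      exact hz h

theorem pat4 (hS : Sep Z) {G : X × Y → Z} (hG : Continuous G) (p : X) (q : Y) :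
    ¬ ∃ᶠ x : X × Y in 𝓝 (p, q), (G x ≠ G (p, q) ∧ G (p, x.2) = G (p, q)) ∧
        ∀ᶠ b in 𝓝 q, G (p, b) = G (p, q) → G (x.1, b) = G (p, q) := by
  intro h'
  obtain ⟨f, hf, hr⟩ := exists_seq_of_forall_finset_exists (α := Tup X Y Z)
    (fun t => IsClopen t.C ∧ G (t.a, t.b) ∈ t.C ∧ G (p, q) ∉ t.C ∧ G (p, t.b) = G (p, q) ∧
      ∀ᶠ b in 𝓝 q, G (p, b) = G (p, q) → G (t.a, b) = G (p, q))
    (fun s t => G (s.a, t.b) = G (p, q) ∧ Disjoint s.C t.C) (by
    intro s hs
    have e1 : ∀ᶠ x : X × Y in 𝓝 (p, q), ∀ t ∈ s, G (p, x.2) = G (p, q) →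
        G (t.a, x.2) = G (p, q) := by
      refine (Filter.eventually_all_finset s).2 (fun t ht => ?_)
      have := (hs t ht).2.2.2.2
      exact (continuous_snd.tendsto (p, q)).eventually this
    have e3 : ∀ᶠ x : X × Y in 𝓝 (p, q), ∀ t ∈ s, G x ∈ (t.C)ᶜ :=
      (Filter.eventually_all_finset s).2 (fun t ht =>
        ev hG (hs t ht).1.compl.isOpen (hs t ht).2.2.1)
    obtain ⟨x, ⟨⟨hx1, hx2⟩, hx3⟩, hx4, hx6⟩ := (h'.and_eventually (e1.and e3)).exists
    obtain ⟨C, hC, hWC, hdC, hTC⟩ := avoid s (fun t => t.C) (fun t ht => (hs t ht).1)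
      {G (p, q)} {G x}
      (Set.finite_singleton _) (Set.finite_singleton _)
      (fun t ht => by
        rw [Set.disjoint_singleton_right]
        exact hx6 t ht)
      (by rw [Set.disjoint_singleton]; exact fun h => hx1 h.symm)
    exact ⟨⟨x.1, x.2, C, ∅⟩, ⟨hC, hWC rfl, Set.disjoint_singleton_left.1 hTC, hx2, hx3⟩,
      fun t ht => ⟨hx4 t ht hx2, hdC t ht⟩⟩)
  obtain ⟨D, hD, hD1, hD2⟩ := hS (fun i => (f (2 * i)).C) (fun i => (f (2 * i + 1)).C)
    (fun n => (hf _).1) (fun n => (hf _).1) (by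
      intro i j
      rcases lt_or_gt_of_ne (show 2 * i ≠ 2 * j + 1 by omega) with h | h
      · exact (hr _ _ h).2
      · exact (hr _ _ h).2.symm)
  by_cases hz : G (p, q) ∈ D
  · refine no_upper hG (fun n => (f (2 * n + 1)).a) (fun n => (f (2 * n + 1)).b) hD.compl
      (fun n h => Set.disjoint_left.1 (hD2 n) h (hf _).2.1) (fun k l hlk => ?_)
    rw [(hr (2 * k + 1) (2 * l + 1) (by omega)).1]
    exact fun h => h hz
  · refine no_upper hG (fun n => (f (2 * n)).a) (fun n => (f (2 * n)).b) hD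
      (fun n => hD1 n (hf _).2.1) (fun k l hlk => ?_)
    rw [(hr (2 * k) (2 * l) (by omega)).1]
    exact hz

theorem pat5 (hS : Sep Z) {G : X × Y → Z} (hG : Continuous G) (p : X) (q : Y) :
    ∀ᶠ x : X × Y in 𝓝 (p, q), ¬ (G x ≠ G (p, q) ∧ G (p, x.2) = G (p, q) ∧
      G (x.1, q) = G (p, q)) := by
  by_contra h
  have h' : ∃ᶠ x : X × Y in 𝓝 (p, q), (G x ≠ G (p, q) ∧ G (p, x.2) = G (p, q) ∧
      G (x.1, q) = G (p, q)) := h
  have h3 := pat3 hS hG p q
  push Not at h3
  obtain ⟨s, hs1, hs2⟩ := h3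
  have hev : ∀ᶠ x : X × Y in 𝓝 (p, q), (G x ≠ G (p, q) ∧ G (p, x.2) = G (p, q)) →
      ∃ b ∈ s, G x = G (x.1, b) := by
    have : ¬ ∃ᶠ x : X × Y in 𝓝 (p, q), (G x ≠ G (p, q) ∧ G (p, x.2) = G (p, q)) ∧
        ∀ b ∈ s, G x ≠ G (x.1, b) := by
      intro hh
      exact absurd hh (by simpa using hs2)
    rw [Filter.not_frequently] at this
    filter_upwards [this] with x hx hx'
    by_contra hcon
    push Not at hcon
    exact hx ⟨hx', hcon⟩
  rw [nhds_prod_eq, Filter.eventually_prod_iff] at hev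
  obtain ⟨U, hU, V, hV, hUV⟩ := hev
  apply pat4 hS hG p q
  have hU' : ∀ᶠ x : X × Y in 𝓝 (p, q), U x.1 := (continuous_fst.tendsto (p, q)).eventually hU
  refine (h'.and_eventually hU').mono ?_
  rintro x ⟨⟨hx1, hx2, hx3⟩, hx4⟩
  refine ⟨⟨hx1, hx2⟩, ?_⟩
  have e1 : ∀ᶠ b in 𝓝 q, ∀ b' ∈ s, G (x.1, b') ≠ G (p, q) → G (x.1, b) ≠ G (x.1, b') := by
    refine (Filter.eventually_all_finset s).2 (fun b' hb' => ?_)
    by_cases hb : G (x.1, b') = G (p, q)
    · exact Eventually.of_forall (fun b h => absurd hb h)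
    · have := ev (f := fun b => G (x.1, b)) (t := q) (F := {G (x.1, b')}ᶜ)
        (hG.comp (by fun_prop)) isOpen_compl_singleton (by
          show G (x.1, q) ∉ ({G (x.1, b')} : Set Z)
          rw [hx3]
          exact fun h => hb h.symm)
      filter_upwards [this] with b hb1 _ using hb1
  filter_upwards [e1, hV] with b hb1 hb2 hb3
  by_contra hne
  obtain ⟨b', hb', he⟩ := hUV hx4 hb2 ⟨hne, hb3⟩
  have he' : G (x.1, b) = G (x.1, b') := he
  exact hb1 b' hb' (by rw [← he']; exact hne) he'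

/-- **Local dependence on one coordinate.** -/
theorem local_dep (hS : Sep Z) {G : X × Y → Z} (hG : Continuous G) (p : X) (q : Y) :
    (∀ᶠ x : X × Y in 𝓝 (p, q), G x = G (p, x.2)) ∨
      (∀ᶠ x : X × Y in 𝓝 (p, q), G x = G (x.1, q)) := by
  have hG' : Continuous (fun x : Y × X => G (x.2, x.1)) := hG.comp continuous_swap
  have hsw : ∀ {P : Y × X → Prop}, (∀ᶠ x in 𝓝 (q, p), P x) → ∀ᶠ x : X × Y in 𝓝 (p, q),
      P (x.2, x.1) := fun h => ((continuous_swap.tendsto (p, q)).eventually h)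
  have a1 := pat1 hS hG p q
  have a2 := pat2 hS hG p q
  have b1 := hsw (pat1 hS hG' q p)
  have b2 := hsw (pat2 hS hG' q p)
  have a5 := pat5 hS hG p q
  have hall : ∀ᶠ x : X × Y in 𝓝 (p, q), (G (p, x.2) ≠ G (p, q) → G x = G (p, x.2)) ∧
      (G (x.1, q) ≠ G (p, q) → G x = G (x.1, q)) ∧
      (G (p, x.2) = G (p, q) → G (x.1, q) = G (p, q) → G x = G (p, q)) := by
    filter_upwards [a1, a2, b1, b2, a5] with x h1 h2 h3 h4 h5
    refine ⟨fun h => ?_, fun h => ?_, fun h h' => ?_⟩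
    · by_contra hne
      by_cases hz : G x = G (p, q)
      · exact h1 ⟨hz, h⟩
      · exact h2 ⟨hz, h, hne⟩
    · by_contra hne
      by_cases hz : G x = G (p, q)
      · exact h3 ⟨hz, h⟩
      · exact h4 ⟨hz, h, hne⟩
    · by_contra hne
      exact h5 ⟨hne, h, h'⟩
  by_cases hg : ∀ᶠ a in 𝓝 p, G (a, q) = G (p, q)
  · left
    filter_upwards [hall, (continuous_fst.tendsto (p, q)).eventually hg] with x hx hx'
    by_cases h : G (p, x.2) = G (p, q)
    · rw [hx.2.2 h hx', h]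
    · exact hx.1 h
  · right
    have hall' := hall
    rw [nhds_prod_eq, Filter.eventually_prod_iff] at hall'
    obtain ⟨U, hU, V, hV, hUV⟩ := hall'
    have hg' : ∃ᶠ a in 𝓝 p, ¬ G (a, q) = G (p, q) := by
      rw [Filter.frequently_iff]
      intro W hW
      by_contra hcon
      push Not at hcon
      exact hg (Filter.mem_of_superset hW hcon)
    obtain ⟨a, ha, haU⟩ := (hg'.and_eventually hU).exists
    have e1 : ∀ᶠ b in 𝓝 q, G (p, b) = G (p, q) := by
      have := ev (f := fun b => G (p, b)) (t := q) (F := {G (a, q)}ᶜ)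
        (hG.comp (by fun_prop)) isOpen_compl_singleton (by
          show G (p, q) ∉ ({G (a, q)} : Set Z)
          exact fun h => ha h.symm)
      filter_upwards [this, hV] with b hb hbV
      by_contra hne
      have h1 := (hUV haU hbV).1 hne
      have h2 := (hUV haU hbV).2.1 ha
      apply hb
      show G (p, b) = G (a, q)
      have h1' : G (a, b) = G (p, b) := h1
      have h2' : G (a, b) = G (a, q) := h2
      rw [← h1', h2']
    filter_upwards [hall, (continuous_snd.tendsto (p, q)).eventually e1] with x hx hx'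
    by_cases h : G (x.1, q) = G (p, q)
    · rw [hx.2.2 hx' h, h]
    · exact hx.2.1 h

end two

end Pool.Agent.R583.CK
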