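import Pool.Agent.R583.CK.Main

/-! An independent family of subsets of `ℕ`, and an ultrafilter none of whose elements decides
infinitely many pairs of members of the family. -/

namespace Pool.Agent.R583.CK

open Filter Topology Set

/-- the index set of the independent family -/
abbrev J : Type := ℕ → Bool

/-- initial segments of a branch -/
def br (X : J) (n : ℕ) : List Bool := (List.range n).map X

/-- an independent family of subsets of `ℕ` -/
def ind (X : J) : Set ℕ :=
  {m | ∃ n : ℕ, ∃ F : Finset (List Bool), m = Encodable.encode (n, F) ∧ br X n ∈ F}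

theorem encode_mem_ind {X : J} {n : ℕ} {F : Finset (List Bool)} :
    Encodable.encode (n, F) ∈ ind X ↔ br X n ∈ F := by
  constructor
  · rintro ⟨n', F', h1, h2⟩
    have := Encodable.encode_injective h1
    simp only [Prod.mk.injEq] at this
    obtain ⟨rfl, rfl⟩ := this
    exact h2
  · exact fun h => ⟨n, F, rfl, h⟩

theorem br_ne {X Y : J} (h : X ≠ Y) : ∀ᶠ n in atTop, br X n ≠ br Y n := by
  obtain ⟨k, hk⟩ := Function.ne_iff.1 h
  filter_upwards [Ioi_mem_atTop k] with n hn hbr
  apply hk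
  have : ∀ a ∈ List.range n, X a = Y a := List.map_inj_left.1 hbr
  exact this k (List.mem_range.2 hn)

theorem ind_infinite (S T : Finset J) (h : Disjoint S T) :
    {m | (∀ X ∈ S, m ∈ ind X) ∧ (∀ Y ∈ T, m ∉ ind Y)}.Infinite := by
  classical
  have h1 : ∀ᶠ n in atTop, ∀ X ∈ S, ∀ Y ∈ T, br X n ≠ br Y n := by
    refine (Filter.eventually_all_finset S).2 (fun X hX => ?_)
    refine (Filter.eventually_all_finset T).2 (fun Y hY => ?_)
    apply br_ne
    rintro rfl
    exact Finset.disjoint_left.1 h hX hY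
  obtain ⟨n0, hn0⟩ := Filter.eventually_atTop.1 h1
  refine Set.infinite_of_injective_forall_mem
    (f := fun n : ℕ => Encodable.encode (n + n0, S.image (fun X => br X (n + n0)))) ?_ ?_
  · intro a b hab
    have := Encodable.encode_injective hab
    simp only [Prod.mk.injEq] at this
    omega
  · intro n
    refine ⟨fun X hX => ?_, fun Y hY => ?_⟩
    · rw [encode_mem_ind]
      exact Finset.mem_image_of_mem _ hX
    · rw [encode_mem_ind]
      intro hmem
      obtain ⟨X, hX, hXY⟩ := Finset.mem_image.1 hmem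
      exact hn0 (n + n0) (by omega) X hX Y hY hXY

/-- the pairs of members of the family which are decided to be equal by `A` -/
def RR (A : Set ℕ) : Set (J × J) :=
  {q | q.1 ≠ q.2 ∧ (A ∩ symmDiff (ind q.1) (ind q.2)).Finite}

theorem RR_mono {A B : Set ℕ} (h : A ⊆ B) : RR B ⊆ RR A :=
  fun _ hq => ⟨hq.1, hq.2.subset (Set.inter_subset_inter_left _ h)⟩

theorem RR_symm {A : Set ℕ} {q : J × J} (h : q ∈ RR A) : (q.2, q.1) ∈ RR A :=
  ⟨h.1.symm, by rw [symmDiff_comm]; exact h.2⟩

theorem RR_trans {A : Set ℕ} {a b c : J} (h1 : (a, b) ∈ RR A) (h2 : (a, c) ∈ RR A)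
    (hbc : b ≠ c) : (b, c) ∈ RR A := by
  refine ⟨hbc, (h1.2.union h2.2).subset ?_⟩
  rintro x ⟨hx1, hx2⟩
  by_cases ha : x ∈ ind a
  · rcases hx2 with ⟨hb, hc⟩ | ⟨hc, hb⟩
    · exact Or.inr ⟨hx1, Or.inl ⟨ha, hc⟩⟩
    · exact Or.inl ⟨hx1, Or.inl ⟨ha, hb⟩⟩
  · rcases hx2 with ⟨hb, hc⟩ | ⟨hc, hb⟩
    · exact Or.inl ⟨hx1, Or.inr ⟨hb, ha⟩⟩
    · exact Or.inr ⟨hx1, Or.inr ⟨hc, ha⟩⟩

theorem fresh_pair {A : Set ℕ} (hA : (RR A).Infinite) (V : Finset J) :
    ∃ q ∈ RR A, q.1 ∉ V ∧ q.2 ∉ V := by
  classical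
  by_contra hcon
  push Not at hcon
  have h1 : ∀ v ∈ V, {c | (v, c) ∈ RR A}.Finite := by
    intro v _
    by_contra hinf
    have hinf' : ({c | (v, c) ∈ RR A} \ (V : Set J)).Infinite :=
      Set.Infinite.sdiff hinf V.finite_toSet
    obtain ⟨b, hb, c, hc, hbc⟩ := hinf'.nontrivial
    have := hcon (b, c) (RR_trans hb.1 hc.1 hbc) hb.2
    exact hc.2 this
  apply hA
  have h2 : (⋃ v ∈ V, ((fun c => (v, c)) '' {c | (v, c) ∈ RR A} ∪
      (fun c => (c, v)) '' {c | (v, c) ∈ RR A})).Finite :=
    V.finite_toSet.biUnion (fun v hv => ((h1 v hv).image _).union ((h1 v hv).image _))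
  refine h2.subset ?_
  rintro ⟨a, b⟩ hab
  simp only [mem_iUnion]
  by_cases ha : a ∈ V
  · exact ⟨a, ha, Or.inl ⟨b, hab, rfl⟩⟩
  · exact ⟨b, hcon _ hab ha, Or.inr ⟨a, RR_symm hab, rfl⟩⟩

theorem exists_p : ∃ p : OmegaStar, ∀ A ∈ p.1, (RR A).Finite := by
  classical
  let s : Set (Set ℕ) := {A | (RR Aᶜ).Infinite}
  have key : ∀ t : Set (Set ℕ), t.Finite → t ⊆ s → ∃ S T : Finset J, Disjoint S T ∧
      ∀ A ∈ t, (Aᶜ ∩ {m | (∀ X ∈ S, m ∈ ind X) ∧ (∀ Y ∈ T, m ∉ ind Y)}).Finite := by
    intro t ht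
    induction t, ht using Set.Finite.induction_on with
    | empty => exact fun _ => ⟨∅, ∅, by simp, by simp⟩
    | @insert A t _ _ ih =>
      intro hts
      obtain ⟨S, T, hST, h1⟩ := ih (fun B hB => hts (Set.mem_insert_of_mem _ hB))
      obtain ⟨q, hq, hq1, hq2⟩ := fresh_pair (hts (Set.mem_insert A t)) (S ∪ T)
      refine ⟨insert q.1 S, insert q.2 T, ?_, ?_⟩
      · rw [Finset.disjoint_left]
        intro x hx hx'
        rcases Finset.mem_insert.1 hx with rfl | hx
        · rcases Finset.mem_insert.1 hx' with h | hx'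
          · exact hq.1 h
          · exact hq1 (Finset.mem_union_right _ hx')
        · rcases Finset.mem_insert.1 hx' with rfl | hx'
          · exact hq2 (Finset.mem_union_left _ hx)
          · exact Finset.disjoint_left.1 hST hx hx'
      · intro B hB
        rcases Set.mem_insert_iff.1 hB with rfl | hB
        · refine hq.2.subset ?_
          rintro m ⟨hm1, hm2, hm3⟩
          exact ⟨hm1, Or.inl ⟨hm2 _ (Finset.mem_insert_self _ _),
            hm3 _ (Finset.mem_insert_self _ _)⟩⟩
        · refine (h1 B hB).subset ?_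
          rintro m ⟨hm1, hm2, hm3⟩
          exact ⟨hm1, fun X hX => hm2 X (Finset.mem_insert_of_mem hX),
            fun Y hY => hm3 Y (Finset.mem_insert_of_mem hY)⟩
  have hne : (Filter.generate s).NeBot := by
    rw [Filter.generate_neBot_iff]
    intro t hts ht
    obtain ⟨S, T, hST, h1⟩ := key t ht hts
    have hinf := ind_infinite S T hST
    by_contra hcon
    rw [Set.not_nonempty_iff_eq_empty] at hcon
    apply hinf
    refine (ht.biUnion h1).subset ?_
    intro m hm
    by_contra hm'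
    have : m ∈ ⋂₀ t := by
      intro A hA
      by_contra hmA
      exact hm' (Set.mem_biUnion hA ⟨hmA, hm⟩)
    rw [hcon] at this
    exact this
  let u : Ultrafilter ℕ := Ultrafilter.of (Filter.generate s)
  have hu : (u : Filter ℕ) ≤ Filter.generate s := Ultrafilter.of_le _
  have hfin : ∀ A ∈ u, (RR A).Finite := by
    intro A hA
    by_contra hinf
    have h1 : Aᶜ ∈ s := by
      show (RR Aᶜᶜ).Infinite
      rw [compl_compl]
      exact hinf
    have h2 : Aᶜ ∈ u := hu (Filter.mem_generate_of_mem h1)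
    exact (Ultrafilter.compl_mem_iff_notMem.1 h2) hA
  refine ⟨⟨u, fun n hn => ?_⟩, hfin⟩
  have h1 : ({n} : Set ℕ) ∈ u := by
    rw [hn]
    exact Ultrafilter.mem_pure.2 rfl
  have h2 := hfin _ h1
  have h3 : Set.Infinite (RR {n}) := by
    refine Set.infinite_of_injective_forall_mem
      (f := fun k : ℕ => ((fun i => decide (i = k + 1)), (fun i => decide (i = 0)))) ?_ ?_
    · intro a b hab
      have := congrFun (congrArg Prod.fst hab) (a + 1)
      simp at this
      omega
    · intro k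
      refine ⟨fun h => ?_, (Set.finite_singleton n).subset Set.inter_subset_left⟩
      have := congrFun h 0
      simp at this
  exact h3 h2

end Pool.Agent.R583.CK
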