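import Pool.Agent.R583.CK.Dep

/-! Orbits of constant maps in spaces of continuous self-maps with the compact-open
topology, over compact zero-dimensional spaces with the countable separation property. -/

namespace Pool.Agent.R583.CK

open Filter Topology Set

section prod

variable {K : Type*} [TopologicalSpace K] [CompactSpace K] [T2Space K]
  [TotallyDisconnectedSpace K]

theorem fin_dep (hS : Sep K) (y : K) : ∀ (n : ℕ) (F : (Fin (n + 1) → K) → K), Continuous F →
    ∃ i : Fin (n + 1), ∀ᶠ s in 𝓝 (fun _ : Fin (n + 1) => y), F s = F (fun _ => s i) := by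
  intro n
  induction n with
  | zero =>
    intro F _
    refine ⟨0, Eventually.of_forall (fun s => ?_)⟩
    congr 1
    funext i
    rw [Fin.fin_one_eq_zero i]
  | succ n ih =>
    intro F hF
    let G : K × (Fin (n + 1) → K) → K := fun p => F (Fin.cons p.1 p.2)
    have hG : Continuous G := hF.comp (Continuous.finCons (A := fun _ => K) continuous_fst continuous_snd)
    have hFG : ∀ s, F s = G (s 0, fun i => s i.succ) := by
      intro s
      show F s = F (Fin.cons (s 0) (fun i => s i.succ))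
      congr 1
      exact (Fin.cons_self_tail s).symm
    have hFc : ∀ r, F (fun _ => r) = G (r, fun _ => r) := fun r => hFG _
    have ht : Continuous (fun s : Fin (n + 1 + 1) → K =>
        ((s 0, fun i : Fin (n + 1) => s i.succ) : K × (Fin (n + 1) → K))) := by fun_prop
    have ht' := ht.tendsto (fun _ => y)
    rcases local_dep hS hG y (fun _ => y) with h | h
    · obtain ⟨i, hi⟩ := ih (fun b => G (y, b)) (hG.comp (by fun_prop))
      refine ⟨i.succ, ?_⟩
      have ht2 : Continuous (fun s : Fin (n + 1 + 1) → K =>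
        ((s i.succ, fun _ : Fin (n + 1) => s i.succ) : K × (Fin (n + 1) → K))) := by fun_prop
      have ht3 : Continuous (fun s : Fin (n + 1 + 1) → K =>
        (fun i : Fin (n + 1) => s i.succ)) := by fun_prop
      filter_upwards [ht'.eventually h, (ht2.tendsto (fun _ => y)).eventually h,
        (ht3.tendsto (fun _ => y)).eventually hi] with s h1 h2 h3
      rw [hFG, hFc, h1, h2]
      exact h3
    · refine ⟨0, ?_⟩
      have ht2 : Continuous (fun s : Fin (n + 1 + 1) → K =>
        ((s 0, fun _ : Fin (n + 1) => s 0) : K × (Fin (n + 1) → K))) := by fun_prop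
      filter_upwards [ht'.eventually h, (ht2.tendsto (fun _ => y)).eventually h] with s h1 h2
      rw [hFG, hFc, h1, h2]

theorem finite_dep (hS : Sep K) {ι : Type*} [Finite ι] [Nonempty ι] (y : K)
    (F : (ι → K) → K) (hF : Continuous F) :
    ∃ i : ι, ∀ᶠ s in 𝓝 (fun _ : ι => y), F s = F (fun _ => s i) := by
  obtain ⟨n, ⟨e⟩⟩ := Finite.exists_equiv_fin ι
  obtain ⟨m, rfl⟩ : ∃ m, n = m + 1 := by
    cases n with
    | zero => exact (Fin.elim0 (e (Classical.arbitrary ι)))
    | succ m => exact ⟨m, rfl⟩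
  obtain ⟨i, hi⟩ := fin_dep hS y m (fun s => F (fun j => s (e j)))
    (hF.comp (by fun_prop))
  refine ⟨e.symm i, ?_⟩
  have ht : Continuous (fun s : ι → K => (fun j : Fin (m + 1) => s (e.symm j))) := by fun_prop
  filter_upwards [(ht.tendsto (fun _ => y)).eventually hi] with s hs
  simpa using hs

end prod

section star

variable {K : Type*} [TopologicalSpace K] [CompactSpace K] [T2Space K]
  [TotallyDisconnectedSpace K]

/-- the evaluation of the image of a constant map -/
def gg (Φ : C(K, K) ≃ₜ C(K, K)) (p : K × K) : K := Φ (ContinuousMap.const K p.1) p.2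

omit [TotallyDisconnectedSpace K] in
theorem gg_cont (Φ : C(K, K) ≃ₜ C(K, K)) : Continuous (gg Φ) := by
  have h1 : Continuous (fun p : K × K => Φ (ContinuousMap.const K p.1)) :=
    Φ.continuous.comp (ContinuousMap.continuous_const'.comp continuous_fst)
  exact h1.eval continuous_snd

theorem uniform (hS : Sep K) (Φ : C(K, K) ≃ₜ C(K, K)) (x y : K)
    (hxy : ∀ t, gg Φ (x, t) = y) :
    ∃ U ∈ 𝓝 x, ∀ t, ∀ᶠ t' in 𝓝 t, ∀ s ∈ U, gg Φ (s, t') = gg Φ (s, t) := by
  have key : ∀ t : K, ∃ U ∈ 𝓝 x, ∃ V ∈ 𝓝 t, ∀ s ∈ U, ∀ t' ∈ V, ∀ t'' ∈ V,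
      gg Φ (s, t') = gg Φ (s, t'') := by
    intro t
    rcases local_dep hS (gg_cont Φ) x t with h | h
    · rw [nhds_prod_eq] at h
      obtain ⟨U, hU, V, hV, hUV⟩ := Filter.mem_prod_iff.1 h
      refine ⟨U, hU, V, hV, fun s hs t' ht' t'' ht'' => ?_⟩
      have h1 : gg Φ (s, t') = gg Φ (x, t') := hUV (Set.mk_mem_prod hs ht')
      have h2 : gg Φ (s, t'') = gg Φ (x, t'') := hUV (Set.mk_mem_prod hs ht'')
      rw [h1, h2, hxy, hxy]
    · rw [nhds_prod_eq] at h
      obtain ⟨U, hU, V, hV, hUV⟩ := Filter.mem_prod_iff.1 h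
      refine ⟨U, hU, V, hV, fun s hs t' ht' t'' ht'' => ?_⟩
      have h1 : gg Φ (s, t') = gg Φ (s, t) := hUV (Set.mk_mem_prod hs ht')
      have h2 : gg Φ (s, t'') = gg Φ (s, t) := hUV (Set.mk_mem_prod hs ht'')
      rw [h1, h2]
  choose U hU V hV hUV using key
  obtain ⟨T, hT⟩ := CompactSpace.elim_nhds_subcover (fun t => interior (V t))
    (fun t => interior_mem_nhds.2 (hV t))
  refine ⟨⋂ t ∈ T, U t, (Filter.biInter_finset_mem T).2 (fun t _ => hU t), fun t => ?_⟩
  have ht : t ∈ ⋃ i ∈ T, interior (V i) := by rw [hT]; trivial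
  simp only [mem_iUnion] at ht
  obtain ⟨i, hi, hti⟩ := ht
  filter_upwards [isOpen_interior.mem_nhds hti] with t' ht' s hs
  simp only [mem_iInter] at hs
  exact hUV i s (hs i hi) t' (interior_subset ht') t (interior_subset hti)

theorem star (hS : Sep K) (Φ : C(K, K) ≃ₜ C(K, K)) (x y : K)
    (hxy : ∀ t, gg Φ (x, t) = y) (t0 : K) :
    ∃ t1 : K, ∀ᶠ s in 𝓝 x, gg Φ.symm (gg Φ (s, t1), t0) = s := by
  obtain ⟨U, hU, hUt⟩ := uniform hS Φ x y hxy
  obtain ⟨S, hSr⟩ : ∃ S : DiscreteQuotient K, ∀ t t' : K, S.toSetoid t t' →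
      ∀ s ∈ U, gg Φ (s, t') = gg Φ (s, t) :=
    ⟨{ r := fun t t' => ∀ s ∈ U, gg Φ (s, t') = gg Φ (s, t)
       iseqv := ⟨fun t s _ => rfl, fun h s hs => (h s hs).symm,
         fun h h' s hs => (h' s hs).trans (h s hs)⟩
       isOpen_setOfPred_rel := by
         intro t
         rw [isOpen_iff_mem_nhds]
         intro t' ht'
         filter_upwards [hUt t'] with t'' h'' s hs
         exact (h'' s hs).trans (ht' s hs) }, fun t t' h => h⟩
  have : Nonempty K := ⟨x⟩
  have hcont : ∀ s : S → K, Continuous (fun t : K => s (S.proj t)) := fun s =>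
    continuous_of_discreteTopology.comp S.proj_continuous
  let e : (S → K) → C(K, K) := fun s => ⟨fun t => s (S.proj t), hcont s⟩
  have he : Continuous e := by
    apply ContinuousMap.continuous_of_continuous_uncurry
    have h1 : Continuous (fun p : (S → K) × S => p.1 p.2) := by
      rw [continuous_prod_of_discrete_right]
      intro b
      exact continuous_apply b
    exact h1.comp (continuous_id.prodMap S.proj_continuous)
  let F : (S → K) → K := fun s => Φ.symm (e s) t0
  have hF : Continuous F := (Φ.symm.continuous.comp he).eval continuous_const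
  obtain ⟨i, hi⟩ := finite_dep hS (ι := S) y F hF
  have hFc : ∀ r, F (fun _ => r) = gg Φ.symm (r, t0) := fun r => rfl
  have hrep : ∀ t : K, ∀ s ∈ U, gg Φ (s, (S.proj t).out) = gg Φ (s, t) := by
    intro t s hs
    have h1 : S.toSetoid ((S.proj t).out) t := Quotient.exact (Quotient.out_eq _)
    exact (hSr _ _ h1 s hs).symm
  refine ⟨i.out, ?_⟩
  have ht : Continuous (fun s : K => (fun j : S => gg Φ (s, j.out))) := by
    refine continuous_pi (fun j => (gg_cont Φ).comp (by fun_prop))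
  have hty : (fun j : S => gg Φ (x, j.out)) = fun _ => y := by
    funext j
    exact hxy _
  have ht' := ht.tendsto x
  rw [hty] at ht'
  filter_upwards [ht'.eventually hi, hU] with s hs hsU
  have h1 : e (fun j : S => gg Φ (s, j.out)) = Φ (ContinuousMap.const K s) := by
    ext t
    exact hrep t s hsU
  have h2 : F (fun j : S => gg Φ (s, j.out)) = s := by
    show Φ.symm (e (fun j : S => gg Φ (s, j.out))) t0 = s
    rw [h1, Homeomorph.symm_apply_apply]
    rfl
  rw [h2, hFc] at hs
  exact hs.symm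

theorem inverse_germs (hS : Sep K) (Φ : C(K, K) ≃ₜ C(K, K)) (x y : K)
    (hxy : Φ (ContinuousMap.const K x) = ContinuousMap.const K y) :
    ∃ g g' : K → K, Continuous g ∧ Continuous g' ∧ g x = y ∧ g' y = x ∧
      (∀ᶠ s in 𝓝 x, g' (g s) = s) ∧ (∀ᶠ r in 𝓝 y, g (g' r) = r) := by
  have h1 : ∀ t, gg Φ (x, t) = y := by
    intro t
    show Φ (ContinuousMap.const K x) t = y
    rw [hxy]
    rfl
  have h2 : ∀ t, gg Φ.symm (y, t) = x := by
    intro t
    show Φ.symm (ContinuousMap.const K y) t = x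
    rw [← hxy, Homeomorph.symm_apply_apply]
    rfl
  obtain ⟨t1, ht1⟩ := star hS Φ x y h1 x
  obtain ⟨t2, ht2⟩ := star hS Φ.symm y x h2 t1
  rw [Homeomorph.symm_symm] at ht2
  refine ⟨fun s => gg Φ (s, t1), fun r => gg Φ.symm (r, x),
    (gg_cont Φ).comp (by fun_prop), (gg_cont Φ.symm).comp (by fun_prop), h1 t1, h2 x, ht1, ?_⟩
  have hc : Continuous (fun r => gg Φ.symm (r, t2)) := (gg_cont Φ.symm).comp (by fun_prop)
  have hc' := hc.tendsto y
  have hy2 : gg Φ.symm (y, t2) = x := h2 t2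
  rw [hy2] at hc'
  filter_upwards [ht2, hc'.eventually ht1] with r hr hr'
  rw [hr] at hr'
  show gg Φ (gg Φ.symm (r, x), t1) = r
  rw [hr', hr]

end star

section extend

variable {K : Type*} [TopologicalSpace K] [CompactSpace K] [T2Space K]
  [TotallyDisconnectedSpace K]

theorem extend {g g' : K → K} (hg : Continuous g) (hg' : Continuous g') {x y : K}
    (h1 : g x = y) (h3 : ∀ᶠ s in 𝓝 x, g' (g s) = s)
    (h4 : ∀ᶠ r in 𝓝 y, g (g' r) = r) : ∃ h : K ≃ₜ K, h x = y := by
  classical
  by_cases hxy : x = y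
  · exact ⟨Homeomorph.refl K, hxy⟩
  obtain ⟨Ox, Oy, hOx, hOy, hxO, hyO, hd⟩ := t2_separation hxy
  obtain ⟨A, hA, hAo, hxA⟩ := mem_nhds_iff.1 h3
  obtain ⟨W, hW, hWo, hyW⟩ := mem_nhds_iff.1 h4
  obtain ⟨U, hU, hxU, hUs⟩ := compact_exists_isClopen_in_isOpen
    (U := A ∩ Ox ∩ g ⁻¹' (W ∩ Oy)) ((hAo.inter hOx).inter ((hWo.inter hOy).preimage hg))
    (x := x) ⟨⟨hxA, hxO⟩, by show g x ∈ W ∩ Oy; rw [h1]; exact ⟨hyW, hyO⟩⟩
  have hV : g '' U = (W ∩ Oy) ∩ g' ⁻¹' U := by
    ext r
    constructor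
    · rintro ⟨s, hs, rfl⟩
      refine ⟨(hUs hs).2, ?_⟩
      show g' (g s) ∈ U
      have : g' (g s) = s := hA (hUs hs).1.1
      rw [this]
      exact hs
    · rintro ⟨hr1, hr2⟩
      exact ⟨g' r, hr2, hW hr1.1⟩
  have hVc : IsClopen (g '' U) := by
    refine ⟨(hU.isClosed.isCompact.image hg).isClosed, ?_⟩
    rw [hV]
    exact (hWo.inter hOy).inter (hU.isOpen.preimage hg')
  have hUg : ∀ s ∈ U, g' (g s) = s := fun s hs => hA (hUs hs).1.1
  have hVg : ∀ r ∈ g '' U, g (g' r) = r := by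
    rintro r ⟨s, hs, rfl⟩
    rw [hUg s hs]
  have hVg' : ∀ r ∈ g '' U, g' r ∈ U := by
    rintro r ⟨s, hs, rfl⟩
    rw [hUg s hs]
    exact hs
  have hUV : ∀ s ∈ U, s ∉ g '' U := by
    intro s hs hs'
    rw [hV] at hs'
    exact Set.disjoint_left.1 hd (hUs hs).1.2 hs'.1.2
  let h : K → K := U.piecewise g ((g '' U).piecewise g' id)
  have hh : Continuous h := by
    refine Continuous.piecewise ?_ hg (Continuous.piecewise ?_ hg' continuous_id)
    · intro a ha
      rw [hU.frontier_eq] at ha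
      exact absurd ha (Set.notMem_empty a)
    · intro a ha
      rw [hVc.frontier_eq] at ha
      exact absurd ha (Set.notMem_empty a)
  have hinv : ∀ s, h (h s) = s := by
    intro s
    by_cases hs : s ∈ U
    · have e1 : h s = g s := Set.piecewise_eq_of_mem _ _ _ hs
      have e2 : g s ∈ g '' U := Set.mem_image_of_mem g hs
      have e3 : g s ∉ U := fun hc => hUV _ hc e2
      rw [e1]
      show U.piecewise g ((g '' U).piecewise g' id) (g s) = s
      rw [Set.piecewise_eq_of_notMem _ _ _ e3, Set.piecewise_eq_of_mem _ _ _ e2]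
      exact hUg s hs
    · by_cases hs' : s ∈ g '' U
      · have e1 : h s = g' s := by
          show U.piecewise g ((g '' U).piecewise g' id) s = g' s
          rw [Set.piecewise_eq_of_notMem _ _ _ hs, Set.piecewise_eq_of_mem _ _ _ hs']
        rw [e1]
        show U.piecewise g ((g '' U).piecewise g' id) (g' s) = s
        rw [Set.piecewise_eq_of_mem _ _ _ (hVg' s hs')]
        exact hVg s hs'
      · have e1 : h s = s := by
          show U.piecewise g ((g '' U).piecewise g' id) s = s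
          rw [Set.piecewise_eq_of_notMem _ _ _ hs, Set.piecewise_eq_of_notMem _ _ _ hs']
          rfl
        rw [e1, e1]
  refine ⟨⟨⟨h, h, hinv, hinv⟩, hh, hh⟩, ?_⟩
  show h x = y
  rw [← h1]
  exact Set.piecewise_eq_of_mem _ _ _ hxU

/-- Constant maps with values `x` and `y` lie in the same orbit of the space of continuous
self-maps only if `x` and `y` lie in the same orbit. -/
theorem main_forward (hS : Sep K) (x y : K)
    (H : ∃ Φ : C(K, K) ≃ₜ C(K, K), Φ (ContinuousMap.const K x) = ContinuousMap.const K y) :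
    ∃ h : K ≃ₜ K, h x = y := by
  obtain ⟨Φ, hΦ⟩ := H
  obtain ⟨g, g', hg, hg', h1, -, h3, h4⟩ := inverse_germs hS Φ x y hΦ
  exact extend hg hg' h1 h3 h4

omit [CompactSpace K] [T2Space K] [TotallyDisconnectedSpace K] in
theorem main_backward (x y : K) (H : ∃ h : K ≃ₜ K, h x = y) :
    ∃ Φ : C(K, K) ≃ₜ C(K, K), Φ (ContinuousMap.const K x) = ContinuousMap.const K y := by
  obtain ⟨h, hh⟩ := H
  refine ⟨⟨⟨fun f => (h : C(K, K)).comp f, fun f => (h.symm : C(K, K)).comp f, ?_, ?_⟩,
    ContinuousMap.continuous_postcomp _, ContinuousMap.continuous_postcomp _⟩, ?_⟩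
  · intro f
    ext t
    simp
  · intro f
    ext t
    simp
  · ext t
    exact hh

theorem main (hS : Sep K) (x y : K) :
    (∃ Φ : C(K, K) ≃ₜ C(K, K), Φ (ContinuousMap.const K x) = ContinuousMap.const K y) ↔
      ∃ h : K ≃ₜ K, h x = y :=
  ⟨main_forward hS x y, main_backward x y⟩

end extend

/-! ### The remainder of the integers -/

/-- `ω* = βω \ ω`: the ultrafilters on `ℕ` that are not principal, with the topology of the
space of ultrafilters. -/
abbrev OmegaStar : Type := {p : Ultrafilter ℕ // ∀ n : ℕ, p ≠ pure n}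

theorem isClosed_omegaStar : IsClosed {p : Ultrafilter ℕ | ∀ n : ℕ, p ≠ pure n} := by
  rw [← isOpen_compl_iff, isOpen_iff_mem_nhds]
  intro p hp
  simp only [mem_compl_iff, mem_ofPred_eq, not_forall, not_not] at hp
  obtain ⟨n, rfl⟩ := hp
  refine Filter.mem_of_superset
    ((ultrafilter_isOpen_basic {n}).mem_nhds (show {n} ∈ (pure n : Ultrafilter ℕ) from ?_)) ?_
  · exact Ultrafilter.mem_pure.2 rfl
  · intro q hq hq'
    obtain ⟨m, hm, rfl⟩ := Ultrafilter.eq_pure_of_finite_mem (Set.finite_singleton n) hq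
    exact hq' m rfl

instance : CompactSpace OmegaStar := isCompact_iff_compactSpace.1 isClosed_omegaStar.isCompact

/-- basic clopen sets -/
def BB (A : Set ℕ) : Set OmegaStar := {p | A ∈ p.1}

theorem BB_clopen (A : Set ℕ) : IsClopen (BB A) :=
  ⟨(ultrafilter_isClosed_basic A).preimage continuous_subtype_val,
    (ultrafilter_isOpen_basic A).preimage continuous_subtype_val⟩

theorem infinite_of_mem {p : OmegaStar} {A : Set ℕ} (h : A ∈ p.1) : A.Infinite := by
  intro hA
  obtain ⟨n, -, hn⟩ := Ultrafilter.eq_pure_of_finite_mem hA h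
  exact p.2 n hn

theorem exists_mem_of_infinite {A : Set ℕ} (hA : A.Infinite) : ∃ p : OmegaStar, A ∈ p.1 := by
  have hne : (cofinite ⊓ 𝓟 A).NeBot := hA.cofinite_inf_principal_neBot
  let u : Ultrafilter ℕ := Ultrafilter.of (cofinite ⊓ 𝓟 A)
  have hu : (u : Filter ℕ) ≤ cofinite ⊓ 𝓟 A := Ultrafilter.of_le _
  refine ⟨⟨u, fun n hn => ?_⟩, ?_⟩
  · have h1 : ({n} : Set ℕ)ᶜ ∈ (u : Filter ℕ) :=
      hu (Filter.mem_inf_of_left (by simp))
    have h2 : ({n} : Set ℕ)ᶜ ∈ (pure n : Ultrafilter ℕ) := by rw [← hn]; exact h1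
    exact (Ultrafilter.mem_pure.1 h2) rfl
  · exact hu (Filter.mem_inf_of_right (Filter.mem_principal_self A))

theorem exists_BB {C : Set OmegaStar} (hC : IsClopen C) : ∃ A, C = BB A := by
  have h1 : ∀ p : C, ∃ A : Set ℕ, A ∈ (p : OmegaStar).1 ∧ BB A ⊆ C := by
    intro p
    have ho : IsOpen C := hC.isOpen
    obtain ⟨O, hO, hOC⟩ := isOpen_induced_iff.1 ho
    have hp : (p : OmegaStar).1 ∈ O := by
      have : (p : OmegaStar) ∈ Subtype.val ⁻¹' O := by rw [hOC]; exact p.2
      exact this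
    obtain ⟨B, ⟨A, rfl⟩, hpB, hBO⟩ := ultrafilterBasis_is_basis.mem_nhds_iff.1 (hO.mem_nhds hp)
    refine ⟨A, hpB, fun q hq => ?_⟩
    rw [← hOC]
    exact hBO hq
  choose A hA hAC using h1
  obtain ⟨T, hT⟩ := hC.isClosed.isCompact.elim_finite_subcover (fun p : C => BB (A p))
    (fun p => (BB_clopen _).isOpen) (fun p hp => by
      simp only [mem_iUnion]
      exact ⟨⟨p, hp⟩, hA ⟨p, hp⟩⟩)
  refine ⟨⋃ p ∈ T, A p, ?_⟩
  ext q
  have hmem : q ∈ BB (⋃ p ∈ T, A p) ↔ ∃ p ∈ T, A p ∈ q.1 :=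
    Ultrafilter.finite_biUnion_mem_iff (f := q.1) (s := A) T.finite_toSet
  rw [hmem]
  constructor
  · intro hq
    have := hT hq
    simp only [mem_iUnion] at this
    obtain ⟨p, hp, hq'⟩ := this
    exact ⟨p, hp, hq'⟩
  · rintro ⟨p, hp, hq⟩
    exact hAC p hq

theorem sep_omegaStar : Sep OmegaStar := by
  intro C E hC hE hd
  choose c hc using fun i => exists_BB (hC i)
  choose e he using fun i => exists_BB (hE i)
  have hfin : ∀ i j, (c i ∩ e j).Finite := by
    intro i j
    by_contra hinf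
    obtain ⟨p, hp⟩ := exists_mem_of_infinite hinf
    have h1 : p ∈ C i := by rw [hc]; exact Filter.mem_of_superset hp Set.inter_subset_left
    have h2 : p ∈ E j := by rw [he]; exact Filter.mem_of_superset hp Set.inter_subset_right
    exact Set.disjoint_left.1 (hd i j) h1 h2
  let d : Set ℕ := ⋃ i, c i \ ⋃ j ∈ Finset.range (i + 1), e j
  refine ⟨BB d, BB_clopen d, fun i p hp => ?_, fun j => ?_⟩
  · rw [hc] at hp
    have h1 : (c i \ d) ⊆ ⋃ j ∈ Finset.range (i + 1), (c i ∩ e j) := by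
      rintro n ⟨hn1, hn2⟩
      by_contra hn3
      apply hn2
      simp only [d, mem_iUnion]
      refine ⟨i, hn1, fun hn4 => hn3 ?_⟩
      simp only [mem_iUnion] at hn4 ⊢
      obtain ⟨j, hj, hn5⟩ := hn4
      exact ⟨j, hj, hn1, hn5⟩
    have h2 : (c i \ d).Finite :=
      ((Finset.range (i + 1)).finite_toSet.biUnion (fun j _ => hfin i j)).subset h1
    show d ∈ p.1
    by_contra hn
    have h3 : dᶜ ∈ p.1 := Ultrafilter.compl_mem_iff_notMem.2 hn
    have h4 : c i \ d ∈ p.1 := Filter.inter_mem hp h3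
    exact infinite_of_mem h4 h2
  · rw [Set.disjoint_left]
    intro p hp1 hp2
    rw [he] at hp2
    have h1 : (d ∩ e j) ⊆ ⋃ i ∈ Finset.range j, (c i ∩ e j) := by
      rintro n ⟨hn1, hn2⟩
      simp only [d, mem_iUnion] at hn1
      obtain ⟨i, hn3, hn4⟩ := hn1
      simp only [mem_iUnion]
      refine ⟨i, ?_, hn3, hn2⟩
      by_contra hij
      apply hn4
      simp only [mem_iUnion]
      exact ⟨j, by simp only [Finset.mem_range] at hij ⊢; omega, hn2⟩
    have h2 : (d ∩ e j).Finite :=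
      ((Finset.range j).finite_toSet.biUnion (fun i _ => hfin i j)).subset h1
    exact infinite_of_mem (Filter.inter_mem hp1 hp2) h2

end Pool.Agent.R583.CK
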