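import Pool.Agent.R583.CK.Comb

/-! The space of continuous self-maps of the remainder of the integers, with the compact-open
topology, is not normal. -/

namespace Pool.Agent.R583.CK

open Filter Topology Set

theorem mem_extend_iff {h : ℕ → OmegaStar} {u : Ultrafilter ℕ} {A : Set ℕ} :
    Ultrafilter.extend h u ∈ BB A ↔ {k | h k ∈ BB A} ∈ u := by
  have hlim : (u.map h : Filter OmegaStar) ≤ 𝓝 (Ultrafilter.extend h u) :=
    ultrafilter_extend_eq_iff.1 rfl
  constructor
  · intro hm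
    exact hlim ((BB_clopen A).isOpen.mem_nhds hm)
  · intro hm
    by_contra hn
    have h1 : {k | h k ∈ (BB A)ᶜ} ∈ u := hlim ((BB_clopen A).compl.isOpen.mem_nhds hn)
    obtain ⟨k, hk1, hk2⟩ := u.nonempty_of_mem (Filter.inter_mem hm h1)
    exact hk2 hk1

/-- a continuous map from `ω*` onto `βω` -/
def rmap (q : OmegaStar) : Ultrafilter ℕ := q.1.map (fun n => (Nat.unpair n).1)

theorem rmap_cont : Continuous rmap := by
  refine continuous_generateFrom_iff.2 ?_
  rintro s ⟨t, rfl⟩
  exact (BB_clopen ((fun n => (Nat.unpair n).1) ⁻¹' t)).isOpen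

theorem exists_ik : ∀ k : ℕ, ∃ q : OmegaStar, rmap q = pure k := by
  intro k
  have hinf : {n : ℕ | (Nat.unpair n).1 = k}.Infinite := by
    refine Set.infinite_of_injective_forall_mem (f := fun j : ℕ => Nat.pair k j) ?_ ?_
    · intro a b hab
      exact (Nat.pair_eq_pair.1 hab).2
    · intro j
      simp
  obtain ⟨q, hq⟩ := exists_mem_of_infinite hinf
  refine ⟨q, ?_⟩
  obtain ⟨m, hm, he⟩ := Ultrafilter.eq_pure_of_finite_mem (f := rmap q)
    (Set.finite_singleton k) hq
  rw [he, hm]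

/-- a sequence in `ω*` which is mapped to the integers -/
noncomputable def ik (k : ℕ) : OmegaStar := Classical.choose (exists_ik k)

theorem rmap_ik (k : ℕ) : rmap (ik k) = pure k := Classical.choose_spec (exists_ik k)

/-- the continuous self-map of `ω*` given by a sequence -/
noncomputable def ext (h : ℕ → OmegaStar) : C(OmegaStar, OmegaStar) :=
  ⟨fun q => Ultrafilter.extend h (rmap q), (continuous_ultrafilter_extend h).comp rmap_cont⟩

theorem ext_ik (h : ℕ → OmegaStar) (k : ℕ) : ext h (ik k) = h k := by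
  show Ultrafilter.extend h (rmap (ik k)) = h k
  rw [rmap_ik, ultrafilter_extend_pure]

theorem ext_nhds (h : ℕ → OmegaStar) {O : Set C(OmegaStar, OmegaStar)} (hO : IsOpen O)
    (hh : ext h ∈ O) : ∃ F : Finset (Set ℕ), ∀ h' : ℕ → OmegaStar,
      (∀ k, ∀ A ∈ F, A ∈ (h' k).1 ↔ A ∈ (h k).1) → ext h' ∈ O := by
  classical
  let N : Set ℕ → Set (ℕ → OmegaStar) := fun A => {h' | ∀ k, A ∈ (h' k).1 ↔ A ∈ (h k).1}
  have ht : Tendsto ext (⨅ A, 𝓟 (N A)) (𝓝 (ext h)) := by
    rw [ContinuousMap.tendsto_nhds_compactOpen]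
    intro K hK U hU hKU
    obtain ⟨C, hC, hKC, hCU⟩ := exists_clopen_of_closed_subset_open
      (hK.image (ext h).continuous).isClosed hU (Set.image_subset_iff.2 hKU)
    obtain ⟨A, rfl⟩ := exists_BB hC
    have hNA : N A ∈ ⨅ A, 𝓟 (N A) :=
      Filter.mem_iInf_of_mem A (Filter.mem_principal_self _)
    filter_upwards [hNA] with h' hh' q hq
    apply hCU
    have h1 : Ultrafilter.extend h (rmap q) ∈ BB A := hKC (Set.mem_image_of_mem _ hq)
    have h2 : {k | h' k ∈ BB A} = {k | h k ∈ BB A} := by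
      ext k
      exact hh' k
    show Ultrafilter.extend h' (rmap q) ∈ BB A
    rw [mem_extend_iff, h2, ← mem_extend_iff]
    exact h1
  have hb := (Filter.hasBasis_iInf_principal_finite N).mem_iff.1 (ht (hO.mem_nhds hh))
  obtain ⟨t, ht1, ht2⟩ := hb
  refine ⟨ht1.toFinset, fun h' hh' => ?_⟩
  apply ht2
  simp only [mem_iInter]
  intro A hA k
  exact hh' k A (by simpa using hA)

/-- the sequence with a new first term -/
def cs (s : OmegaStar) (h : ℕ → OmegaStar) : ℕ → OmegaStar
  | 0 => s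
  | k + 1 => h k

/-- the trace of a continuous self-map -/
def trc (Ψ : C(OmegaStar, OmegaStar)) (A : Set ℕ) : Set ℕ := {k | Ψ (ik (k + 1)) ∈ BB A}

theorem trc_ext (s : OmegaStar) (h : ℕ → OmegaStar) (A : Set ℕ) :
    trc (ext (cs s h)) A = tr h A := by
  ext k
  show ext (cs s h) (ik (k + 1)) ∈ BB A ↔ _
  rw [ext_ik]
  rfl

theorem trc_eventually (Ψ : C(OmegaStar, OmegaStar)) (A : Set ℕ) :
    ∀ᶠ Ψ' in 𝓝 Ψ, trc Ψ' A = trc Ψ A := by
  have h1 : MapsTo Ψ (closure ((fun k => ik (k + 1)) '' trc Ψ A)) (BB A) := by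
    have : closure ((fun k => ik (k + 1)) '' trc Ψ A) ⊆ Ψ ⁻¹' (BB A) := by
      refine closure_minimal ?_ ((BB_clopen A).isClosed.preimage Ψ.continuous)
      rintro _ ⟨k, hk, rfl⟩
      exact hk
    exact this
  have h2 : MapsTo Ψ (closure ((fun k => ik (k + 1)) '' (trc Ψ A)ᶜ)) (BB A)ᶜ := by
    have : closure ((fun k => ik (k + 1)) '' (trc Ψ A)ᶜ) ⊆ Ψ ⁻¹' (BB A)ᶜ := by
      refine closure_minimal ?_ ((BB_clopen A).compl.isClosed.preimage Ψ.continuous)
      rintro _ ⟨k, hk, rfl⟩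
      exact hk
    exact this
  filter_upwards [ContinuousMap.eventually_mapsTo isClosed_closure.isCompact
      (BB_clopen A).isOpen h1, ContinuousMap.eventually_mapsTo isClosed_closure.isCompact
      (BB_clopen A).compl.isOpen h2] with Ψ' h3 h4
  ext k
  constructor
  · intro hk
    by_contra hn
    exact h4 (subset_closure (Set.mem_image_of_mem _ hn)) hk
  · intro hk
    exact h3 (subset_closure (Set.mem_image_of_mem _ hk))

/-- the open cover, in terms of traces -/
def UU (t : J → Set ℕ) (q : J × J) : Prop :=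
  (q.1 ≠ q.2 ∧ t q.1 = t q.2) ∨ ¬ ((t q.1).Finite ∨ (t q.1)ᶜ.Finite)

theorem UU_open (q : J × J) : IsOpen {Ψ : C(OmegaStar, OmegaStar) |
    UU (fun X => trc Ψ (ind X)) q} := by
  rw [isOpen_iff_mem_nhds]
  intro Ψ hΨ
  filter_upwards [trc_eventually Ψ (ind q.1), trc_eventually Ψ (ind q.2)] with Ψ' h1 h2
  show UU (fun X => trc Ψ' (ind X)) q
  unfold UU
  simp only
  rw [h1, h2]
  exact hΨ

theorem UU_cover (t : J → Set ℕ) : ∃ q, UU t q := by
  have h8 : Cardinal.mk (ℕ → Bool) = Cardinal.continuum := by simp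
  by_contra hcon
  push Not at hcon
  have h1 : ∀ X, (t X).Finite ∨ (t X)ᶜ.Finite := by
    intro X
    by_contra h
    exact hcon (X, X) (Or.inr h)
  have h2 : Function.Injective t := by
    intro X Y hXY
    by_contra hne
    exact hcon (X, Y) (Or.inl ⟨hne, hXY⟩)
  have h3 : {s : Set ℕ | s.Finite}.Countable := Set.Countable.ofPred_finite
  have h4 : {s : Set ℕ | s.Finite ∨ sᶜ.Finite}.Countable := by
    refine (h3.union (h3.image compl)).mono ?_
    rintro s (hs | hs)
    · exact Or.inl hs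
    · exact Or.inr ⟨sᶜ, hs, compl_compl s⟩
  have h5 : (Set.univ : Set J).Countable := by
    refine Set.MapsTo.countable_of_injOn (f := t) (fun X _ => ?_) h2.injOn h4
    exact h1 X
  have h6 : Countable J := Set.countable_univ_iff.1 h5
  have h7 : Cardinal.mk (ℕ → Bool) ≤ Cardinal.aleph0 := Cardinal.mk_le_aleph0_iff.2 h6
  rw [h8] at h7
  exact absurd h7 (not_le.2 Cardinal.aleph0_lt_continuum)

/-- the tube lemma used on both sides -/
theorem tube {ι : Type*} (h : ℕ → OmegaStar) {O : Set C(OmegaStar, OmegaStar)} (hO : IsOpen O)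
    (Q : Set ι) (D : ι → Set OmegaStar) (hD : ∀ q, IsClosed (D q))
    (H : ∀ s, (∀ q ∈ Q, s ∈ D q) → ext (cs s h) ∈ O) :
    ∃ (F : Finset (Set ℕ)) (S : Finset ι), (∀ q ∈ S, q ∈ Q) ∧
      ∀ h' : ℕ → OmegaStar, (∀ k, ∀ A ∈ F, A ∈ (h' k).1 ↔ A ∈ (h k).1) →
        ∀ s, (∀ q ∈ S, s ∈ D q) → ext (cs s h') ∈ O := by
  classical
  have h1 : ∀ s : OmegaStar, ∃ F : Finset (Set ℕ), (∀ q ∈ Q, s ∈ D q) →
      ∀ h' : ℕ → OmegaStar, (∀ k, ∀ A ∈ F, A ∈ (h' k).1 ↔ A ∈ (cs s h k).1) → ext h' ∈ O := by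
    intro s
    by_cases hs : ∀ q ∈ Q, s ∈ D q
    · obtain ⟨F, hF⟩ := ext_nhds (cs s h) hO (H s hs)
      exact ⟨F, fun _ => hF⟩
    · exact ⟨∅, fun h => absurd h hs⟩
  choose F hF using h1
  let V : OmegaStar → Set OmegaStar := fun s => {s' | ∀ A ∈ F s, A ∈ s'.1 ↔ A ∈ s.1}
  have hV : ∀ s, IsOpen (V s) := by
    intro s
    have : V s = ⋂ A ∈ F s, (if A ∈ s.1 then BB A else (BB A)ᶜ) := by
      ext s'
      simp only [mem_iInter]
      constructor
      · intro h A hA
        by_cases hs : A ∈ s.1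
        · rw [if_pos hs]; exact (h A hA).2 hs
        · rw [if_neg hs]; exact fun h' => hs ((h A hA).1 h')
      · intro h A hA
        have := h A hA
        by_cases hs : A ∈ s.1
        · rw [if_pos hs] at this
          exact ⟨fun _ => hs, fun _ => this⟩
        · rw [if_neg hs] at this
          exact ⟨fun h => absurd h this, fun h => absurd h hs⟩
    rw [this]
    refine isOpen_biInter_finset (fun A _ => ?_)
    by_cases hs : A ∈ s.1
    · rw [if_pos hs]; exact (BB_clopen A).isOpen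
    · rw [if_neg hs]; exact (BB_clopen A).compl.isOpen
  have hVs : ∀ s, s ∈ V s := fun s A _ => Iff.rfl
  have hC1 : IsCompact (⋂ q ∈ Q, D q) := (isClosed_biInter (fun q _ => hD q)).isCompact
  obtain ⟨T, hT1, hT2⟩ := hC1.elim_nhds_subcover V (fun s _ => (hV s).mem_nhds (hVs s))
  have hC2 : IsCompact (⋃ s ∈ T, V s)ᶜ :=
    (isOpen_biUnion (fun s _ => hV s)).isClosed_compl.isCompact
  obtain ⟨S, hS⟩ := hC2.elim_finite_subcover (fun q : Q => (D q)ᶜ)
    (fun q => (hD q).isOpen_compl) (by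
      intro s hs
      by_contra hs'
      apply hs
      apply hT2
      simp only [mem_iInter]
      intro q hq
      by_contra hsq
      apply hs'
      simp only [mem_iUnion]
      exact ⟨⟨q, hq⟩, hsq⟩)
  refine ⟨T.biUnion F, S.image Subtype.val, ?_, ?_⟩
  · intro q hq
    obtain ⟨q', _, rfl⟩ := Finset.mem_image.1 hq
    exact q'.2
  · intro h' hh' s hs
    have h2 : s ∈ ⋃ s ∈ T, V s := by
      by_contra hn
      have := hS hn
      simp only [mem_iUnion] at this
      obtain ⟨q, hq, hsq⟩ := this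
      exact hsq (hs q (Finset.mem_image_of_mem _ hq))
    simp only [mem_iUnion] at h2
    obtain ⟨s0, hs0, hs0'⟩ := h2
    have hs1 := hT1 s0 hs0
    simp only [mem_iInter] at hs1
    refine hF s0 hs1 (cs s h') ?_
    intro k A hA
    cases k with
    | zero => exact hs0' A hA
    | succ k => exact hh' k A (Finset.mem_biUnion.2 ⟨s0, hs0, hA⟩)

/-- an injection of pairs of branches in branches -/
theorem exists_code : ∃ φ : J × J → J, Function.Injective φ := by
  let e : (ℕ → Bool) × (ℕ → Bool) ≃ (ℕ → Bool) :=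
    (Equiv.sumArrowEquivProdArrow ℕ ℕ Bool).symm.trans
      (Equiv.arrowCongr Equiv.natSumNatEquivNat (Equiv.refl Bool))
  exact ⟨e, e.injective⟩

theorem eval_cont (q : OmegaStar) : Continuous (fun Ψ : C(OmegaStar, OmegaStar) => Ψ q) :=
  ContinuousEvalConst.continuous_eval_const q

/-- The space of continuous self-maps of `ω*` is not normal. -/
theorem not_normal : ¬ NormalSpace C(OmegaStar, OmegaStar) := by
  classical
  intro hN
  obtain ⟨φ, hφ⟩ := exists_code
  let H1 : Set C(OmegaStar, OmegaStar) := {Ψ | ∀ q, Ψ (ik 0) ∈ BB (ind (φ q))}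
  let H2 : Set C(OmegaStar, OmegaStar) :=
    {Ψ | ∀ q, Ψ (ik 0) ∈ BB (ind (φ q)) → ¬ UU (fun X => trc Ψ (ind X)) q}
  have hH1 : IsClosed H1 := by
    have : H1 = ⋂ q, (fun Ψ : C(OmegaStar, OmegaStar) => Ψ (ik 0)) ⁻¹' BB (ind (φ q)) := by
      ext Ψ
      simp only [mem_iInter]
      rfl
    rw [this]
    exact isClosed_iInter (fun q => (BB_clopen _).isClosed.preimage (eval_cont _))
  have hH2 : IsClosed H2 := by
    have : H2 = ⋂ q, ((fun Ψ : C(OmegaStar, OmegaStar) => Ψ (ik 0)) ⁻¹' (BB (ind (φ q)))ᶜ ∪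
        {Ψ : C(OmegaStar, OmegaStar) | UU (fun X => trc Ψ (ind X)) q}ᶜ) := by
      ext Ψ
      simp only [mem_iInter]
      constructor
      · intro h q
        by_cases hq : Ψ (ik 0) ∈ BB (ind (φ q))
        · exact Or.inr (h q hq)
        · exact Or.inl hq
      · intro h q hq
        rcases h q with h' | h'
        · exact absurd hq h'
        · exact h'
    rw [this]
    exact isClosed_iInter (fun q => ((BB_clopen _).compl.isClosed.preimage (eval_cont _)).union
      (UU_open q).isClosed_compl)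
  have hdis : Disjoint H1 H2 := by
    rw [Set.disjoint_left]
    intro Ψ h1 h2
    obtain ⟨q, hq⟩ := UU_cover (fun X => trc Ψ (ind X))
    exact h2 q (h1 q) hq
  obtain ⟨O1, O2, hO1, hO2, hHO1, hHO2, hOO⟩ := normal_separation hH1 hH2 hdis
  have t1 : ∀ h : ℕ → OmegaStar, ∃ (F : Finset (Set ℕ)) (S : Finset (J × J)),
      ∀ h' : ℕ → OmegaStar, (∀ k, ∀ A ∈ F, A ∈ (h' k).1 ↔ A ∈ (h k).1) →
        ∀ s, (∀ q ∈ S, s ∈ BB (ind (φ q))) → ext (cs s h') ∈ O1 := by
    intro h
    obtain ⟨F, S, -, h1⟩ := tube h hO1 (Set.univ : Set (J × J)) (fun q => BB (ind (φ q)))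
      (fun q => (BB_clopen _).isClosed) (by
        intro s hs
        apply hHO1
        intro q
        rw [ext_ik]
        exact hs q trivial)
    exact ⟨F, S, h1⟩
  choose F S hFS using t1
  obtain ⟨y, hs, hy, hyG⟩ := comb F S
  obtain ⟨G, S', hS', hG⟩ := tube y hO2 {q | UU (fun X => tr y (ind X)) q}
    (fun q => (BB (ind (φ q)))ᶜ) (fun q => (BB_clopen _).compl.isClosed) (by
      intro s hs'
      apply hHO2
      intro q hq
      rw [ext_ik] at hq
      intro hU
      have hU' : UU (fun X => tr y (ind X)) q := by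
        have : (fun X => trc (ext (cs s y)) (ind X)) = fun X => tr y (ind X) := by
          funext X
          exact trc_ext s y (ind X)
        rwa [this] at hU
      exact hs' q hU' hq)
  obtain ⟨n, z, hz1, hz2⟩ := hyG G
  have hdisj : Disjoint ((S (hs n)).image φ) (S'.image φ) := by
    rw [Finset.disjoint_left]
    intro x hx hx'
    obtain ⟨q, hq, rfl⟩ := Finset.mem_image.1 hx
    obtain ⟨q', hq', he⟩ := Finset.mem_image.1 hx'
    have : q' = q := hφ he
    subst this
    obtain ⟨h1, h2⟩ := hy n q' hq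
    rcases hS' q' hq' with h3 | h3
    · exact h1 h3.1 h3.2
    · exact h3 h2
  obtain ⟨s, hs1⟩ := exists_mem_of_infinite (ind_infinite _ _ hdisj)
  have e1 : ext (cs s z) ∈ O1 := by
    refine hFS (hs n) z hz1 s (fun q hq => ?_)
    exact Filter.mem_of_superset hs1 (fun m hm => hm.1 _ (Finset.mem_image_of_mem _ hq))
  have e2 : ext (cs s z) ∈ O2 := by
    refine hG z hz2 s (fun q hq => ?_)
    refine notMem_of_disjoint hs1 (fun m hm => ?_)
    exact hm.2 _ (Finset.mem_image_of_mem _ hq)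
  exact Set.disjoint_left.1 hOO e1 e2

end Pool.Agent.R583.CK
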